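import Mathlib

/-! Inequalities on the fourth vertex of a square two of whose vertices are on two arms that are
Lipschitz graphs in the logarithmic coordinate. -/

set_option autoImplicit false
open Complex Set

namespace Pool.Agent.H774.Rad

/-- the heart shaped region lies in a cone -/
theorem fact1 {κ t δ : ℝ} (hκ : 0 ≤ κ) (h : |δ| ≤ κ * t) :
    |Real.exp (-t) * Real.sin δ| ≤ κ * (1 - Real.exp (-t) * Real.cos δ) := by
  have e1 : Real.exp (-t) * Real.exp t = 1 := by rw [← Real.exp_add]; simp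
  have e2 := Real.add_one_le_exp t
  have e3 := Real.cos_le_one δ
  have e4 : |Real.sin δ| ≤ |δ| := Real.abs_sin_le_abs
  have e5 := Real.exp_pos (-t)
  rw [abs_mul, abs_of_pos e5]
  have e6 : |Real.sin δ| ≤ κ * (Real.exp t - Real.cos δ) := by
    have : κ * t ≤ κ * (Real.exp t - Real.cos δ) := mul_le_mul_of_nonneg_left (by linarith) hκ
    linarith
  have e7 := mul_le_mul_of_nonneg_left e6 e5.le
  calc _ ≤ _ := e7
    _ = κ * (Real.exp (-t) * Real.exp t - Real.exp (-t) * Real.cos δ) := by ring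
    _ = _ := by rw [e1]

theorem fact1' {κ t δ : ℝ} (hκ : 0 < κ) (ht : 0 < t) (h : |δ| ≤ κ * t) :
    |Real.exp (-t) * Real.sin δ| < κ * (1 - Real.exp (-t) * Real.cos δ) := by
  have e1 : Real.exp (-t) * Real.exp t = 1 := by rw [← Real.exp_add]; simp
  have e2 := Real.add_one_lt_exp ht.ne'
  have e3 := Real.cos_le_one δ
  have e4 : |Real.sin δ| ≤ |δ| := Real.abs_sin_le_abs
  have e5 := Real.exp_pos (-t)
  rw [abs_mul, abs_of_pos e5]
  have e6 : |Real.sin δ| < κ * (Real.exp t - Real.cos δ) := by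
    have : κ * t < κ * (Real.exp t - Real.cos δ) := mul_lt_mul_of_pos_left (by linarith) hκ
    linarith
  have e7 := mul_lt_mul_of_pos_left e6 e5
  calc _ < _ := e7
    _ = κ * (Real.exp (-t) * Real.exp t - Real.exp (-t) * Real.cos δ) := by ring
    _ = _ := by rw [e1]

/-- an arm that is seen under a wide angle -/
theorem lemA {κ C S u t : ℝ} (k0 : 0 ≤ κ) (k1 : κ ≤ 1) (h1 : C ^ 2 + S ^ 2 = 1) (hS : 0 ≤ S)
    (hC : κ * S ≤ 1 - C) (hC1 : C < 1) (hu : |u| ≤ κ * t) (ht : 0 ≤ t) :
    (C + κ * S) * Real.cos u + (S - κ * C) * Real.sin u ≤ Real.exp t := by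
  have et := Real.add_one_le_exp t
  obtain ⟨g, hg⟩ : ∃ g, g = C + κ * S := ⟨_, rfl⟩
  obtain ⟨m, hm⟩ : ∃ m, m = S - κ * C := ⟨_, rfl⟩
  have g1 : g ≤ 1 := by linarith
  have gm : g ^ 2 + m ^ 2 = 1 + κ ^ 2 := by
    rw [hg, hm]
    have : (C + κ * S) ^ 2 + (S - κ * C) ^ 2 = (C ^ 2 + S ^ 2) * (1 + κ ^ 2) := by ring
    rw [this, h1, one_mul]
  have mk : κ ≤ m := by
    rcases hS.eq_or_lt with h | h
    · have : C = -1 := by
        have e : (C - 1) * (C + 1) = 0 := by rw [← h] at h1; linarith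
        rcases mul_eq_zero.1 e with e | e <;> linarith
      rw [hm, this, ← h]; linarith
    · have e1 : κ * S * (1 + C) ≤ (1 - C) * (1 + C) :=
        mul_le_mul_of_nonneg_right hC (by nlinarith)
      have e2 : S * (κ * (1 + C)) ≤ S * S := by nlinarith
      have e3 := le_of_mul_le_mul_left e2 h
      linarith
  rw [← hg, ← hm]
  have hcs := Real.sin_sq_add_cos_sq u
  rcases le_or_gt (κ ^ 2 / 2) t with h | h
  · -- Cauchy-Schwarz
    have e1 : (g * Real.cos u + m * Real.sin u) ^ 2 ≤ 1 + κ ^ 2 := by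
      have : (g * Real.cos u + m * Real.sin u) ^ 2 + (g * Real.sin u - m * Real.cos u) ^ 2 =
        (g ^ 2 + m ^ 2) * (Real.sin u ^ 2 + Real.cos u ^ 2) := by ring
      rw [hcs, gm] at this
      nlinarith [sq_nonneg (g * Real.sin u - m * Real.cos u)]
    have e2 : (g * Real.cos u + m * Real.sin u) ≤ 1 + κ ^ 2 / 2 := by
      refine (le_abs_self _).trans (abs_le_of_sq_le_sq ?_ (by positivity))
      nlinarith [sq_nonneg (κ ^ 2)]
    linarith
  · have hu1 : |u| ≤ κ / 2 := by nlinarith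
    have hu2 : |u| ≤ 1 / 2 := by linarith
    have hc : 7 / 8 ≤ Real.cos u := by
      have := Real.one_sub_sq_div_two_le_cos (x := u)
      have : u ^ 2 ≤ 1 / 4 := by rw [← sq_abs]; nlinarith [abs_nonneg u]
      linarith
    rcases le_total u 0 with h0 | h0
    · have hs : Real.sin u ≤ 0 := Real.sin_nonpos_of_nonpos_of_neg_pi_le h0 (by
        rw [abs_of_nonpos h0] at hu2; linarith [Real.pi_gt_three])
      have e1 : m * Real.sin u ≤ 0 := mul_nonpos_of_nonneg_of_nonpos (by linarith) hs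
      have e2 : g * Real.cos u ≤ 1 := by
        have := Real.cos_le_one u
        nlinarith
      linarith
    · rw [abs_of_nonneg h0] at hu hu1 hu2
      have hs0 : 0 ≤ Real.sin u := Real.sin_nonneg_of_nonneg_of_le_pi h0 (by
        linarith [Real.pi_gt_three])
      have hs1 : Real.sin u ≤ u := Real.sin_le h0
      -- (m - κ) sin u ≤ (1 - g) cos u
      have e1 : (1 - g) * (1 + g) = (m - κ) * (m + κ) := by linarith
      have e2 : (m - κ) * Real.sin u ≤ (1 - g) * Real.cos u := by
        rcases le_or_gt (m + κ) 0 with h2 | h2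
        · have : m = 0 ∧ κ = 0 := by constructor <;> linarith
          rw [this.1, this.2]
          have : 0 ≤ (1 - g) * Real.cos u := mul_nonneg (by linarith) (by linarith)
          linarith
        · have e3 : (1 + g) * Real.sin u ≤ (m + κ) * Real.cos u := by
            have a1 : (1 + g) * Real.sin u ≤ 2 * Real.sin u :=
              mul_le_mul_of_nonneg_right (by linarith) hs0
            have a2 : 2 * κ * (7 / 8) ≤ (m + κ) * Real.cos u := by
              have : 2 * κ * Real.cos u ≤ (m + κ) * Real.cos u :=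
                mul_le_mul_of_nonneg_right (by linarith) (by linarith)
              have : 2 * κ * (7 / 8) ≤ 2 * κ * Real.cos u :=
                mul_le_mul_of_nonneg_left hc (by linarith)
              linarith
            linarith
          have e4 : (m + κ) * ((m - κ) * Real.sin u) ≤ (m + κ) * ((1 - g) * Real.cos u) := by
            calc (m + κ) * ((m - κ) * Real.sin u) = (1 - g) * ((1 + g) * Real.sin u) := by
                  linear_combination (-Real.sin u) * e1
              _ ≤ (1 - g) * ((m + κ) * Real.cos u) :=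
                  mul_le_mul_of_nonneg_left e3 (by linarith)
              _ = _ := by ring
          exact le_of_mul_le_mul_left e4 h2
      have e5 : κ * Real.sin u ≤ t := by
        have : κ * Real.sin u ≤ 1 * u := mul_le_mul k1 hs1 hs0 zero_le_one
        have : u ≤ t := by nlinarith
        linarith
      have := Real.cos_le_one u
      nlinarith

theorem exp_half : Real.exp (1 / 2) < 1.65 := by
  have h1 : Real.exp (1 / 2) * Real.exp (1 / 2) = Real.exp 1 := by
    rw [← Real.exp_add]; norm_num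
  have h2 := Real.exp_one_lt_d9
  have h3 := Real.exp_pos (1 / 2)
  nlinarith

theorem exp_two5 : Real.exp (2 / 5) < 1.4925 := by
  have h1 : Real.exp (2 / 5) ^ 5 = Real.exp 1 ^ 2 := by
    rw [← Real.exp_nat_mul, ← Real.exp_nat_mul]; norm_num
  have h2 := Real.exp_one_lt_d9
  have h3 := Real.exp_pos (2 / 5)
  have h4 : Real.exp 1 ^ 2 < 7.3891 := by
    have := Real.exp_pos 1
    nlinarith
  by_contra h
  push Not at h
  have : (1.4925:ℝ) ^ 5 ≤ Real.exp (2 / 5) ^ 5 := pow_le_pow_left₀ (by norm_num) h 5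
  rw [h1] at this
  have e : (7.4 : ℝ) < 1.4925 ^ 5 := by norm_num
  linarith

theorem exp_cos {s y : ℝ} (y0 : 0 ≤ y) (ys : y ≤ s) (s1 : s ≤ 81 / 100) :
    1 + s - s ^ 3 / 2 - s ^ 4 / 4 ≤ Real.exp s * Real.cos y := by
  have s0 : 0 ≤ s := y0.trans ys
  have h1 := Real.quadratic_le_exp_of_nonneg s0
  have h2 := Real.one_sub_sq_div_two_le_cos (x := s)
  have h3 : Real.cos s ≤ Real.cos y :=
    Real.cos_le_cos_of_nonneg_of_le_pi y0 (by linarith [Real.pi_gt_three]) ys
  have h4 : 0 ≤ 1 - s ^ 2 / 2 := by nlinarith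
  have h5 : (1 + s + s ^ 2 / 2) * (1 - s ^ 2 / 2) ≤ Real.exp s * Real.cos y :=
    mul_le_mul h1 (by linarith) h4 (by positivity)
  nlinarith

theorem exp_sin {s y : ℝ} (y0 : 0 ≤ y) (ys : y ≤ s) :
    Real.exp s * Real.sin y ≤ Real.exp s * s :=
  mul_le_mul_of_nonneg_left ((Real.sin_le y0).trans ys) (Real.exp_pos s).le

theorem num_neg {s y : ℝ} (y0 : 0 ≤ y) (ys : y ≤ s) (s1 : s ≤ 81 / 100)
    (h1 : 1 ≤ Real.exp s * Real.sin y) (h2 : Real.exp s * Real.cos y ≤ 137 / 100) : False := by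
  have s0 : 0 ≤ s := y0.trans ys
  have e1 := exp_cos y0 ys s1
  have e2 := exp_sin y0 ys
  have e3 : 1 / 2 ≤ s := by
    by_contra h
    push Not at h
    have : Real.exp s ≤ Real.exp (1 / 2) := Real.exp_le_exp.2 h.le
    have := exp_half
    nlinarith
  have e4 : 0 ≤ (s - 1 / 2) * (81 / 100 - s) := mul_nonneg (by linarith) (by linarith)
  nlinarith [mul_nonneg e4 s0, mul_nonneg (mul_nonneg e4 s0) s0]

theorem num_small {s y : ℝ} (y0 : 0 ≤ y) (ys : y ≤ s) (s1 : s ≤ 81 / 100)
    (h : (1 - Real.exp s * Real.sin y) ^ 2 + (1 - Real.exp s * Real.cos y) ^ 2 ≤ 4 / 25) :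
    False := by
  have s0 : 0 ≤ s := y0.trans ys
  have e1 := exp_cos y0 ys s1
  have e2 := exp_sin y0 ys
  obtain ⟨a, ha⟩ : ∃ a, a = 1 - Real.exp s * Real.sin y := ⟨_, rfl⟩
  obtain ⟨b, hb⟩ : ∃ b, b = Real.exp s * Real.cos y - 1 := ⟨_, rfl⟩
  have h' : a ^ 2 + b ^ 2 ≤ 4 / 25 := by rw [ha, hb]; linarith
  have a1 : a ≤ 2 / 5 := by nlinarith
  have b1 : b ≤ 2 / 5 := by nlinarith
  -- s < 0.6
  have e3 : s < 3 / 5 := by
    by_contra h3
    push Not at h3
    have e4 : Real.exp s ^ 2 = (1 - a) ^ 2 + (1 + b) ^ 2 := by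
      rw [ha, hb]
      have := Real.sin_sq_add_cos_sq y
      linear_combination (-(Real.exp s ^ 2)) * this
    have e5 : 1.8143 < Real.exp s := by
      have h1 := Real.quadratic_le_exp_of_nonneg (x := 3 / 5) (by norm_num)
      have h2 : ∑ i ∈ Finset.range 4, (3 / 5 : ℝ) ^ i / i.factorial ≤ Real.exp (3 / 5) :=
        Real.sum_le_exp_of_nonneg (by norm_num) 4
      have h5 : ∑ i ∈ Finset.range 5, (3 / 5 : ℝ) ^ i / i.factorial ≤ Real.exp (3 / 5) :=
        Real.sum_le_exp_of_nonneg (by norm_num) 5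
      simp only [Finset.sum_range_succ, Finset.sum_range_zero, Nat.factorial] at h5
      norm_num at h5
      have : Real.exp (3 / 5) ≤ Real.exp s := Real.exp_le_exp.2 h3
      linarith
    have e6 : (b - a) ^ 2 ≤ 8 / 25 := by nlinarith [sq_nonneg (a + b)]
    have e7 : b - a ≤ 0.5657 := by
      refine (le_abs_self _).trans (abs_le_of_sq_le_sq ?_ (by norm_num))
      norm_num
      linarith
    nlinarith
  have e4 : s ≤ 47 / 100 := by
    by_contra h3
    push Not at h3
    have e4 : 0 ≤ (s - 47 / 100) * (3 / 5 - s) := mul_nonneg (by linarith) (by linarith)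
    nlinarith [mul_nonneg e4 s0, mul_nonneg (mul_nonneg e4 s0) s0]
  have e5 : 2 / 5 ≤ s := by
    by_contra h3
    push Not at h3
    have : Real.exp s ≤ Real.exp (2 / 5) := Real.exp_le_exp.2 h3.le
    have := exp_two5
    nlinarith
  have e6 : Real.exp s ≤ Real.exp (1 / 2) := Real.exp_le_exp.2 (by linarith)
  have e7 := exp_half
  have a2 : 22 / 100 ≤ a := by nlinarith
  have b2 : 36 / 100 ≤ b := by
    have e4 : 0 ≤ (s - 2 / 5) * (1 / 2 - s) := mul_nonneg (by linarith) (by linarith)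
    nlinarith [mul_nonneg e4 s0, mul_nonneg (mul_nonneg e4 s0) s0]
  nlinarith

end Pool.Agent.H774.Rad
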