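import Pool.Agent.H774.W1a

/-! Inequalities on the fourth vertex of a square: the outer side. -/

set_option autoImplicit false
open Complex Set

namespace Pool.Agent.H774.Rad

theorem lemM {κ s y : ℝ} (k0 : 0 ≤ κ) (k1 : κ < 1) (s0 : 0 < s) (s1 : s ≤ 81 / 100) (y0 : 0 ≤ y)
    (ys : y ≤ κ * s) (h : Real.exp s * Real.sin y < 1) :
    arg (1 + I - I * exp ((s : ℂ) - y * I)) <
      κ * Real.log ‖1 + I - I * exp ((s : ℂ) - y * I)‖ := by
  have ys' : y ≤ s := by nlinarith
  have hy : y < Real.pi / 4 := by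
    by_contra h1
    push Not at h1
    have hπ := Real.pi_gt_three
    have a1 : Real.sin (Real.pi / 4) ≤ Real.sin y :=
      Real.sin_le_sin_of_le_of_le_pi_div_two (by linarith) (by linarith) h1
    rw [Real.sin_pi_div_four] at a1
    have a2 : 7 / 5 ≤ √2 := Real.le_sqrt_of_sq_le (by norm_num)
    have a3 := Real.add_one_le_exp s
    nlinarith
  set v : ℂ := (s : ℂ) - y * I with hv
  obtain ⟨Q, hQ⟩ : ∃ Q : ℝ → ℂ, Q = fun τ : ℝ => 1 + I - I * exp ((τ : ℂ) * v) := ⟨_, rfl⟩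
  have vre : v.re = s := by simp [hv]
  have vim : v.im = -y := by simp [hv]
  have er : ∀ τ : ℝ, (exp ((τ : ℂ) * v)).re = Real.exp (τ * s) * Real.cos (τ * y) := by
    intro τ
    rw [Complex.exp_re]
    have e1 : ((τ : ℂ) * v).re = τ * s := by simp [vre]
    have e2 : ((τ : ℂ) * v).im = -(τ * y) := by simp [vim]
    rw [e1, e2, Real.cos_neg]
  have ei : ∀ τ : ℝ, (exp ((τ : ℂ) * v)).im = -(Real.exp (τ * s) * Real.sin (τ * y)) := by
    intro τ
    rw [Complex.exp_im]
    have e1 : ((τ : ℂ) * v).re = τ * s := by simp [vre]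
    have e2 : ((τ : ℂ) * v).im = -(τ * y) := by simp [vim]
    rw [e1, e2, Real.sin_neg]
    ring
  have Qre : ∀ τ, (Q τ).re = 1 - Real.exp (τ * s) * Real.sin (τ * y) := by
    intro τ
    rw [hQ]
    simp [er τ, ei τ]
  have Qim : ∀ τ, (Q τ).im = 1 - Real.exp (τ * s) * Real.cos (τ * y) := by
    intro τ
    rw [hQ]
    simp [er τ, ei τ]
  have hpos : ∀ τ ∈ Icc (0:ℝ) 1, 0 < (Q τ).re := by
    intro τ hτ
    rw [Qre τ]
    have h1 : Real.exp (τ * s) ≤ Real.exp s := Real.exp_le_exp.2 (by nlinarith [hτ.2])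
    have h2 : Real.sin (τ * y) ≤ Real.sin y :=
      Real.sin_le_sin_of_le_of_le_pi_div_two
        (by have := mul_nonneg hτ.1 y0; linarith [Real.pi_pos]) (by linarith [Real.pi_pos])
        (by nlinarith [hτ.2])
    have h3 : 0 ≤ Real.sin (τ * y) := Real.sin_nonneg_of_nonneg_of_le_pi (mul_nonneg hτ.1 y0)
      (by nlinarith [hτ.2, hτ.1, Real.pi_pos])
    have : Real.exp (τ * s) * Real.sin (τ * y) ≤ Real.exp s * Real.sin y :=
      mul_le_mul h1 h2 h3 (Real.exp_pos s).le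
    linarith
  have hd : ∀ τ : ℝ, HasDerivAt Q (-(I * (exp ((τ : ℂ) * v) * v))) τ := by
    intro τ
    have h1 : HasDerivAt (fun τ : ℝ => (τ : ℂ) * v) v τ := by
      have := (Complex.ofRealCLM.hasDerivAt (x := τ)).mul_const v
      simpa using this
    have h2 := h1.cexp
    have h3 := (h2.const_mul I).const_sub (1 + I)
    rw [hQ]
    exact h3
  have hl : ∀ τ ∈ Icc (0:ℝ) 1, HasDerivAt (fun τ => log (Q τ))
      (-(I * (exp ((τ : ℂ) * v) * v)) / Q τ) τ := by
    intro τ hτ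
    exact (hd τ).clog_real (Or.inl (hpos τ hτ))
  have hM : ∀ τ ∈ Icc (0:ℝ) 1, HasDerivAt (fun τ => (log (Q τ)).im - κ * (log (Q τ)).re)
      ((-(I * (exp ((τ : ℂ) * v) * v)) / Q τ).im - κ * (-(I * (exp ((τ : ℂ) * v) * v)) / Q τ).re)
      τ := by
    intro τ hτ
    have h1 := Complex.imCLM.hasFDerivAt.comp_hasDerivAt τ (hl τ hτ)
    have h2 := Complex.reCLM.hasFDerivAt.comp_hasDerivAt τ (hl τ hτ)
    exact h1.sub (h2.const_mul κ)
  have key : ∀ τ ∈ Icc (0:ℝ) 1, (-(I * (exp ((τ : ℂ) * v) * v)) / Q τ).im -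
      κ * (-(I * (exp ((τ : ℂ) * v) * v)) / Q τ).re < 0 := by
    intro τ hτ
    have hn : 0 < normSq (Q τ) := by
      rw [Complex.normSq_pos]
      intro h0
      have := hpos τ hτ
      rw [h0] at this
      simp at this
    obtain ⟨E, hE⟩ : ∃ E, E = Real.exp (τ * s) := ⟨_, rfl⟩
    obtain ⟨c, hc⟩ : ∃ c, c = Real.cos (τ * y) := ⟨_, rfl⟩
    obtain ⟨σ, hσ⟩ : ∃ σ, σ = Real.sin (τ * y) := ⟨_, rfl⟩
    have e1 : (-(I * (exp ((τ : ℂ) * v) * v))).re = -(E * c * y + E * σ * s) := by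
      simp [er τ, ei τ, vre, vim, ← hE, ← hc, ← hσ]
      ring
    have e2 : (-(I * (exp ((τ : ℂ) * v) * v))).im = -(E * c * s - E * σ * y) := by
      simp [er τ, ei τ, vre, vim, ← hE, ← hc, ← hσ]
    have e3 : (Q τ).re = 1 - E * σ := by rw [Qre, hE, hσ]
    have e4 : (Q τ).im = 1 - E * c := by rw [Qim, hE, hc]
    have hcs : σ ^ 2 + c ^ 2 = 1 := by rw [hσ, hc]; exact Real.sin_sq_add_cos_sq _
    rw [Complex.div_re, Complex.div_im, e1, e2, e3, e4]
    have e5 : (-(E * c * s - E * σ * y) * (1 - E * σ) / normSq (Q τ) -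
        -(E * c * y + E * σ * s) * (1 - E * c) / normSq (Q τ) -
        κ * (-(E * c * y + E * σ * s) * (1 - E * σ) / normSq (Q τ) +
          -(E * c * s - E * σ * y) * (1 - E * c) / normSq (Q τ))) =
        -(E * ((c - σ) * (s - κ * y) + (E - c - σ) * (y + κ * s))) / normSq (Q τ) := by
      field_simp
      linear_combination (-E * E * (y + κ * s)) * hcs
    rw [e5]
    apply div_neg_of_neg_of_pos _ hn
    have hE0 : 0 < E := by rw [hE]; exact Real.exp_pos _
    have t0 : 0 ≤ τ * y := mul_nonneg hτ.1 y0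
    have t1 : τ * y < Real.pi / 4 := by nlinarith [hτ.2]
    have c1 : σ < c := by
      rw [hc, hσ, ← Real.cos_pi_div_two_sub]
      exact Real.cos_lt_cos_of_nonneg_of_le_pi (by linarith) (by linarith [Real.pi_pos])
        (by linarith)
    have c2 : 0 ≤ E - c - σ := by
      have a1 := Real.add_one_le_exp (τ * s)
      have a2 : c ≤ 1 := by rw [hc]; exact Real.cos_le_one _
      have a3 : σ ≤ τ * y := by rw [hσ]; exact Real.sin_le t0
      have a4 : τ * y ≤ τ * s := mul_le_mul_of_nonneg_left ys' hτ.1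
      rw [← hE] at a1
      linarith
    have c3 : 0 < s - κ * y := by nlinarith
    have c4 : 0 ≤ y + κ * s := by positivity
    have := mul_pos (sub_pos.2 c1) c3
    have := mul_nonneg c2 c4
    have : 0 < E * ((c - σ) * (s - κ * y) + (E - c - σ) * (y + κ * s)) := by positivity
    linarith
  have hs : StrictAntiOn (fun τ => (log (Q τ)).im - κ * (log (Q τ)).re) (Icc (0:ℝ) 1) := by
    apply strictAntiOn_of_deriv_neg (convex_Icc 0 1)
    · exact fun τ hτ => (hM τ hτ).continuousAt.continuousWithinAt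
    · intro τ hτ
      rw [interior_Icc] at hτ
      have hτ' : τ ∈ Icc (0:ℝ) 1 := ⟨hτ.1.le, hτ.2.le⟩
      rw [(hM τ hτ').deriv]
      exact key τ hτ'
  have h01 := hs (left_mem_Icc.2 zero_le_one) (right_mem_Icc.2 zero_le_one) zero_lt_one
  simp only [hQ, Complex.ofReal_zero, zero_mul, Complex.exp_zero, mul_one, Complex.ofReal_one,
    one_mul, add_sub_cancel_right, Complex.log_one, Complex.zero_re, Complex.zero_im,
    mul_zero, sub_zero] at h01
  rw [Complex.log_im, Complex.log_re] at h01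
  linarith

end Pool.Agent.H774.Rad
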