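import Pool.Agent.H774.W1b

/-! The position of the fourth vertex of a square. -/

set_option autoImplicit false
set_option maxHeartbeats 1000000
open Complex Set

namespace Pool.Agent.H774.Rad

/-- the quotients that occur for the second vertex -/
def Adm (κ ψ : ℝ) (q : ℂ) : Prop := ‖q‖ ≤ 2 / 5 ∨
  (∃ t δ : ℝ, 0 < t ∧ |δ| ≤ κ * t ∧ q = exp (-(t : ℂ) + δ * I)) ∨
  (∃ t δ : ℝ, 0 ≤ t ∧ |δ - ψ| ≤ κ * t ∧ q = exp (-(t : ℂ) + δ * I))

theorem qre {t δ : ℝ} {q : ℂ} (h : q = exp (-(t : ℂ) + δ * I)) :
    q.re = Real.exp (-t) * Real.cos δ ∧ q.im = Real.exp (-t) * Real.sin δ ∧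
      ‖q‖ = Real.exp (-t) := by
  have e1 : (-(t : ℂ) + δ * I).re = -t := by simp
  have e2 : (-(t : ℂ) + δ * I).im = δ := by simp
  rw [h, Complex.exp_re, Complex.exp_im, Complex.norm_exp, e1, e2]
  exact ⟨rfl, rfl, rfl⟩

theorem exp81 : 2.2361 ≤ Real.exp (81 / 100) := by
  have h5 : ∑ i ∈ Finset.range 5, (81 / 100 : ℝ) ^ i / i.factorial ≤ Real.exp (81 / 100) :=
    Real.sum_le_exp_of_nonneg (by norm_num) 5
  simp only [Finset.sum_range_succ, Finset.sum_range_zero, Nat.factorial] at h5
  norm_num at h5
  linarith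

theorem exp90 : 2.42 ≤ Real.exp (9 / 10) := by
  have h5 : ∑ i ∈ Finset.range 5, (9 / 10 : ℝ) ^ i / i.factorial ≤ Real.exp (9 / 10) :=
    Real.sum_le_exp_of_nonneg (by norm_num) 5
  simp only [Finset.sum_range_succ, Finset.sum_range_zero, Nat.factorial] at h5
  norm_num at h5
  linarith

theorem exp100 : Real.exp (-1) ≤ 0.37 := by
  rw [Real.exp_neg, inv_le_comm₀ (Real.exp_pos 1) (by norm_num)]
  have := Real.exp_one_gt_d9
  norm_num
  linarith

/-- basic bounds for the admissible quotients -/
theorem Adm.bds {κ ψ : ℝ} (k0 : 0 ≤ κ) (k1 : κ < 1) (p0 : 0 < ψ) (p1 : ψ ≤ Real.pi) {q : ℂ}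
    (h : Adm κ ψ q) : ‖q‖ ≤ 1 ∧ q ≠ 1 ∧ -q.re - q.im ≤ 1 := by
  have hπ := Real.pi_gt_three
  have small : ‖q‖ ≤ 2 / 5 → ‖q‖ ≤ 1 ∧ q ≠ 1 ∧ -q.re - q.im ≤ 1 := by
    intro h
    refine ⟨by linarith, ?_, ?_⟩
    · rintro rfl
      simp at h
      norm_num at h
    · have h1 := Complex.abs_re_le_norm q
      have h2 := Complex.abs_im_le_norm q
      rw [abs_le] at h1 h2
      linarith [h1.1, h2.1]
  rcases h with h | ⟨t, δ, ht, hδ, hq⟩ | ⟨t, δ, ht, hδ, hq⟩
  · exact small h
  · rcases le_or_gt ‖q‖ (2 / 5) with h | h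
    · exact small h
    obtain ⟨e1, e2, e3⟩ := qre hq
    have e4 : Real.exp (-t) < 1 := by rw [Real.exp_lt_one_iff]; linarith
    refine ⟨by linarith, ?_, ?_⟩
    · intro h1
      rw [h1, norm_one] at e3
      linarith
    · have t1 : t < 1 := by
        by_contra h1
        push Not at h1
        have : Real.exp (-t) ≤ Real.exp (-1) := Real.exp_le_exp.2 (by linarith)
        have := exp100
        linarith
      have hδ' := abs_le.1 hδ
      have hδ1 : |δ| < 1 := by nlinarith
      rw [abs_lt] at hδ1
      have c0 : 0 ≤ Real.cos δ := Real.cos_nonneg_of_mem_Icc ⟨by linarith, by linarith⟩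
      have c1 := Real.neg_one_le_sin δ
      have := Real.exp_pos (-t)
      rw [e1, e2]
      nlinarith
  · rcases le_or_gt ‖q‖ (2 / 5) with h | h
    · exact small h
    obtain ⟨e1, e2, e3⟩ := qre hq
    have e4 : Real.exp (-t) ≤ 1 := by rw [Real.exp_le_one_iff]; linarith
    have t1 : t < 1 := by
      by_contra h1
      push Not at h1
      have : Real.exp (-t) ≤ Real.exp (-1) := Real.exp_le_exp.2 (by linarith)
      have := exp100
      linarith
    have hδ' := abs_le.1 hδ
    have kt : κ * t ≤ t := by nlinarith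
    refine ⟨by linarith, ?_, ?_⟩
    · intro h1
      rw [h1] at e1 e3
      rw [norm_one] at e3
      have ht0 : t = 0 := by
        have := Real.exp_eq_one_iff (-t) |>.1 e3.symm
        linarith
      rw [ht0, mul_zero] at hδ
      have : δ = ψ := by
        have := abs_nonpos_iff.1 hδ
        linarith
      rw [this, ← e3, one_mul, Complex.one_re] at e1
      have : Real.cos ψ < Real.cos 0 := Real.cos_lt_cos_of_nonneg_of_le_pi le_rfl p1 p0
      rw [Real.cos_zero] at this
      linarith
    · rw [e1, e2]
      have hE := Real.exp_pos (-t)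
      rcases le_total δ 0 with h1 | h1
      · have c0 : 0 ≤ Real.cos δ := Real.cos_nonneg_of_mem_Icc ⟨by linarith, by linarith⟩
        have c1 := Real.neg_one_le_sin δ
        nlinarith
      · rcases le_total δ Real.pi with h2 | h2
        · have c0 := Real.sin_nonneg_of_nonneg_of_le_pi h1 h2
          have c1 := Real.neg_one_le_cos δ
          nlinarith
        · have c0 : -Real.cos δ = Real.cos (δ - Real.pi) := by rw [Real.cos_sub_pi]
          have c1 : -Real.sin δ = Real.sin (δ - Real.pi) := by rw [Real.sin_sub_pi]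
          have c2 : Real.sin (δ - Real.pi) ≤ δ - Real.pi := Real.sin_le (by linarith)
          have c3 := Real.cos_le_one (δ - Real.pi)
          have c4 : Real.exp (-t) * Real.exp t = 1 := by rw [← Real.exp_add]; simp
          have c5 := Real.add_one_le_exp t
          have c6 : Real.exp (-t) * (-Real.cos δ - Real.sin δ) ≤ Real.exp (-t) * Real.exp t :=
            mul_le_mul_of_nonneg_left (by linarith) hE.le
          linarith

theorem wide {κ ψ : ℝ} (p0 : 0 < ψ) (p1 : ψ ≤ Real.pi)
    (hψ : Real.cos ψ ≤ (1 - κ ^ 2) / (1 + κ ^ 2)) :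
    0 ≤ Real.sin ψ ∧ κ * Real.sin ψ ≤ 1 - Real.cos ψ ∧ Real.cos ψ < 1 := by
  have h0 : Real.cos ψ < 1 := by
    have : Real.cos ψ < Real.cos 0 := Real.cos_lt_cos_of_nonneg_of_le_pi le_rfl p1 p0
    rwa [Real.cos_zero] at this
  refine ⟨Real.sin_nonneg_of_nonneg_of_le_pi p0.le p1, ?_, h0⟩
  rw [le_div_iff₀ (by positivity)] at hψ
  refine (le_abs_self _).trans (abs_le_of_sq_le_sq ?_ (by linarith))
  have h1 := Real.sin_sq_add_cos_sq ψ
  have h2 : Real.sin ψ ^ 2 = (1 - Real.cos ψ) * (1 + Real.cos ψ) := by linarith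
  rw [mul_pow, h2]
  have h3 : κ ^ 2 * (1 + Real.cos ψ) ≤ 1 - Real.cos ψ := by linarith
  have h4 := mul_le_mul_of_nonneg_left h3 (sub_nonneg.2 h0.le)
  linarith

theorem core {κ ψ : ℝ} (k0 : 0 ≤ κ) (k1 : κ < 1) (p0 : 0 < ψ) (p1 : ψ ≤ Real.pi)
    (hψ : Real.cos ψ ≤ (1 - κ ^ 2) / (1 + κ ^ 2)) {q : ℂ} (h : Adm κ ψ q) :
    ∃ s y : ℝ, 1 - I + I * q = exp ((s : ℂ) - y * I) ∧ κ * |s| < y ∧ y ≤ Real.pi / 2 ∧
      |s| ≤ 9 / 10 ∧ 2 / 5 < Real.exp s ∧ Real.exp s < 12 / 5 := by
  have hπ := Real.pi_gt_three
  obtain ⟨n1, q1, ab⟩ := h.bds k0 k1 p0 p1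
  obtain ⟨w, hw⟩ : ∃ w, w = 1 - I + I * q := ⟨_, rfl⟩
  obtain ⟨a, ha⟩ : ∃ a, a = q.re := ⟨_, rfl⟩
  obtain ⟨b, hb⟩ : ∃ b, b = q.im := ⟨_, rfl⟩
  have wre : w.re = 1 - b := by rw [hw, hb]; simp; ring
  have wim : w.im = a - 1 := by rw [hw, ha]; simp; ring
  have qn : ‖q‖ ^ 2 = a ^ 2 + b ^ 2 := by
    rw [← Complex.normSq_eq_norm_sq, Complex.normSq_apply, ha, hb]; ring
  have wn : ‖w‖ ^ 2 = (1 - b) ^ 2 + (1 - a) ^ 2 := by
    rw [← Complex.normSq_eq_norm_sq, Complex.normSq_apply, wre, wim]; ring
  rw [← ha, ← hb] at ab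
  have nq0 := norm_nonneg q
  have a1 : |a| ≤ 1 := by rw [ha]; exact (Complex.abs_re_le_norm q).trans n1
  have b1 : |b| ≤ 1 := by rw [hb]; exact (Complex.abs_im_le_norm q).trans n1
  have wub : ‖w‖ ≤ 2.2361 := by
    refine (le_abs_self _).trans (abs_le_of_sq_le_sq ?_ (by norm_num))
    rw [wn]
    have : a ^ 2 + b ^ 2 ≤ 1 := by rw [← qn]; nlinarith
    norm_num
    nlinarith
  have hs2 : (1.4142 : ℝ) ≤ √2 := Real.le_sqrt_of_sq_le (by norm_num)
  have wlb' : 1.4142 - ‖q‖ ≤ ‖w‖ := by
    have h1 : ‖(1 : ℂ) - I‖ = √2 := by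
      rw [Complex.norm_def, Complex.normSq_apply]; norm_num
    have h2 : ‖(1 : ℂ) - I‖ - ‖I * q‖ ≤ ‖w‖ := by
      have h3 : w = (1 - I) - (-(I * q)) := by rw [hw]; ring
      have h4 := norm_sub_norm_le (1 - I) (-(I * q))
      rw [norm_neg] at h4
      rw [h3]
      exact h4
    rw [norm_mul, Complex.norm_I, one_mul, h1] at h2
    linarith
  have wlb : 0.4142 ≤ ‖w‖ := by linarith
  have w0 : w ≠ 0 := by
    rintro h0
    rw [h0, norm_zero] at wlb
    norm_num at wlb
  obtain ⟨s, hs⟩ : ∃ s, s = Real.log ‖w‖ := ⟨_, rfl⟩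
  obtain ⟨y, hy⟩ : ∃ y, y = -arg w := ⟨_, rfl⟩
  have es : Real.exp s = ‖w‖ := by rw [hs, Real.exp_log (by linarith)]
  have ew : w = exp ((s : ℂ) - y * I) := by
    conv_lhs => rw [← Complex.exp_log w0]
    congr 1
    apply Complex.ext
    · rw [Complex.log_re, ← hs]; simp
    · rw [Complex.log_im, hy]; simp
  have y0 : 0 ≤ y := by
    rw [hy]
    rcases lt_or_eq_of_le (show w.im ≤ 0 by rw [wim]; linarith [(abs_le.1 a1).2]) with h1 | h1
    · linarith [Complex.arg_neg_iff.2 h1]
    · have : arg w = 0 := by
        rw [Complex.arg_eq_zero_iff]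
        refine ⟨?_, h1⟩
        rw [wre]; linarith [(abs_le.1 b1).2]
      rw [this]; simp
  have y1 : y ≤ Real.pi / 2 := by
    have := Complex.abs_arg_le_pi_div_two_iff.2 (show 0 ≤ w.re by
      rw [wre]; linarith [(abs_le.1 b1).2])
    rw [hy]
    linarith [(abs_le.1 this).1]
  have ec : Real.exp s * Real.cos y = 1 - b := by
    rw [es, hy, Real.cos_neg, Complex.norm_mul_cos_arg, wre]
  have esn : Real.exp s * Real.sin y = 1 - a := by
    have := Complex.norm_mul_sin_arg w
    rw [es, hy, Real.sin_neg]
    linarith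
  have s1 : s ≤ 81 / 100 := by
    have : Real.exp s ≤ Real.exp (81 / 100) := by rw [es]; exact wub.trans exp81
    exact Real.exp_le_exp.1 this
  have s2 : -(9 / 10) ≤ s := by
    have : Real.exp (-(9 / 10)) ≤ Real.exp s := by
      rw [es, Real.exp_neg]
      refine le_trans ?_ wlb
      rw [inv_le_comm₀ (Real.exp_pos _) (by norm_num)]
      refine le_trans ?_ exp90
      norm_num
    exact Real.exp_le_exp.1 this
  refine ⟨s, y, by rw [← hw]; exact ew, ?_, y1, ?_, ?_, ?_⟩
  · by_contra hcon
    push Not at hcon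
    have small : 0 ≤ s → y ≤ κ * s → ‖q‖ ≤ 2 / 5 → False := by
      intro h1 h2 h3
      apply num_small y0 (by nlinarith : y ≤ s) s1
      rw [ec, esn]
      have : ‖q‖ ^ 2 ≤ 4 / 25 := by nlinarith
      rw [qn] at this
      linarith
    rcases lt_or_ge s 0 with hs0 | hs0
    · -- inner side
      rw [abs_of_neg hs0] at hcon
      have hq4 : ¬ ‖q‖ ≤ 2 / 5 := by
        intro h1
        have h2 : 1 ≤ ‖w‖ := by linarith
        have h3 : Real.exp s < 1 := Real.exp_lt_one_iff.2 hs0
        linarith
      have strict : 1 - a < κ * b ∨ κ = 0 := by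
        rcases k0.eq_or_lt with h1 | h1
        · exact Or.inr h1.symm
        · left
          have := fact1' (κ := κ) (t := -s) (δ := y) h1 (by linarith) (by
            rw [abs_of_nonneg y0]; exact hcon)
          rw [neg_neg, ec, esn, abs_of_nonneg (by linarith [(abs_le.1 a1).2])] at this
          linarith
      rcases strict with st | st
      · rcases h with h | ⟨t, δ, ht, hδ, hq⟩ | ⟨t, δ, ht, hδ, hq⟩
        · exact hq4 h
        · obtain ⟨e1, e2, e3⟩ := qre hq
          have f := fact1 k0 hδ
          rw [← e1, ← e2, ← ha, ← hb] at f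
          have f1 := (le_abs_self b).trans f
          have f2 : 0 ≤ 1 - a := by linarith [(abs_le.1 a1).2]
          have f3 : κ * b ≤ κ * (κ * (1 - a)) := mul_le_mul_of_nonneg_left f1 k0
          have f5 : κ * κ ≤ 1 := by nlinarith
          have f4 : κ * κ * (1 - a) ≤ 1 * (1 - a) := mul_le_mul_of_nonneg_right f5 f2
          linarith
        · obtain ⟨e1, e2, e3⟩ := qre hq
          obtain ⟨w1, w2, w3⟩ := wide p0 p1 hψ
          have f := lemA (u := ψ - δ) k0 k1.le (by rw [add_comm]; exact Real.sin_sq_add_cos_sq ψ)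
            w1 w2 w3 (by rw [abs_sub_comm]; exact hδ) ht
          have f1 : Real.cos δ + κ * Real.sin δ = (Real.cos ψ + κ * Real.sin ψ) *
              Real.cos (ψ - δ) + (Real.sin ψ - κ * Real.cos ψ) * Real.sin (ψ - δ) := by
            have g1 := Real.cos_sub ψ (ψ - δ)
            have g2 := Real.sin_sub ψ (ψ - δ)
            rw [show ψ - (ψ - δ) = δ by ring] at g1 g2
            rw [g1, g2]
            ring
          rw [← f1] at f
          have f2 : Real.exp (-t) * Real.exp t = 1 := by rw [← Real.exp_add]; simp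
          have f3 := mul_le_mul_of_nonneg_left f (Real.exp_pos (-t)).le
          rw [f2] at f3
          have f4 : a + κ * b ≤ 1 := by
            rw [ha, hb, e1, e2]
            linarith
          linarith
      · rw [st, zero_mul] at hcon
        have hy0 : y = 0 := le_antisymm hcon y0
        rw [hy0, Real.cos_zero, mul_one] at ec
        rw [hy0, Real.sin_zero, mul_zero] at esn
        have h3 : Real.exp s < 1 := Real.exp_lt_one_iff.2 hs0
        have h4 : a ^ 2 + b ^ 2 ≤ 1 := by rw [← qn]; nlinarith
        have h5 : a = 1 := by linarith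
        have h6 : 0 < b := by linarith
        rw [h5] at h4
        nlinarith
    · -- outer side
      rw [abs_of_nonneg hs0] at hcon
      have hq4 : ¬ ‖q‖ ≤ 2 / 5 := small hs0 hcon
      push Not at hq4
      have hs0' : 0 < s := by
        rcases hs0.eq_or_lt with h1 | h1
        · exfalso
          rw [← h1, mul_zero] at hcon
          have hy0 : y = 0 := le_antisymm hcon y0
          rw [hy0, ← h1, Real.cos_zero, mul_one, Real.exp_zero] at ec
          rw [hy0, Real.sin_zero, mul_zero] at esn
          apply q1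
          apply Complex.ext
          · rw [← ha, Complex.one_re]; linarith
          · rw [← hb, Complex.one_im]; linarith
        · exact h1
      have hys : y ≤ s := by nlinarith
      have hM : 0 < a → arg q < κ * Real.log ‖q‖ := by
        intro h1
        have := lemM k0 k1 hs0' s1 y0 hcon (by linarith)
        rw [← ew] at this
        have e : 1 + I - I * w = q := by
          rw [hw]
          linear_combination (1 - q) * Complex.I_mul_I
        rw [e] at this
        exact this
      rcases h with h | ⟨t, δ, ht, hδ, hq⟩ | ⟨t, δ, ht, hδ, hq⟩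
      · linarith
      · obtain ⟨e1, e2, e3⟩ := qre hq
        have t1 : t < 1 := by
          by_contra h1
          push Not at h1
          have : Real.exp (-t) ≤ Real.exp (-1) := Real.exp_le_exp.2 (by linarith)
          have := exp100
          linarith
        have hδ' := abs_le.1 hδ
        have hδ1 : |δ| < 1 := by nlinarith
        rw [abs_lt] at hδ1
        have apos : 0 < a := by
          rw [ha, e1]
          exact mul_pos (Real.exp_pos _) (Real.cos_pos_of_mem_Ioo ⟨by linarith, by linarith⟩)
        have hl : log q = -(t : ℂ) + δ * I := by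
          rw [hq]
          apply Complex.log_exp <;> simp <;> linarith
        have hl1 : arg q = δ := by rw [← Complex.log_im, hl]; simp
        have hl2 : Real.log ‖q‖ = -t := by rw [← Complex.log_re, hl]; simp
        have := hM apos
        rw [hl1, hl2] at this
        linarith [hδ'.1]
      · obtain ⟨e1, e2, e3⟩ := qre hq
        have t1 : t < 1 := by
          by_contra h1
          push Not at h1
          have : Real.exp (-t) ≤ Real.exp (-1) := Real.exp_le_exp.2 (by linarith)
          have := exp100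
          linarith
        have hδ' := abs_le.1 hδ
        have kt : κ * t ≤ t := by nlinarith
        have kt0 : 0 ≤ κ * t := mul_nonneg k0 ht
        rcases lt_or_ge 0 a with ha0 | ha0
        · have hδ2 : δ < Real.pi / 2 := by
            by_contra h1
            push Not at h1
            have : Real.cos δ ≤ 0 :=
              Real.cos_nonpos_of_pi_div_two_le_of_le h1 (by linarith)
            have : a ≤ 0 := by
              rw [ha, e1]
              exact mul_nonpos_of_nonneg_of_nonpos (Real.exp_pos _).le this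
            linarith
          have hl : log q = -(t : ℂ) + δ * I := by
            rw [hq]
            apply Complex.log_exp <;> simp <;> linarith
          have hl1 : arg q = δ := by rw [← Complex.log_im, hl]; simp
          have hl2 : Real.log ‖q‖ = -t := by rw [← Complex.log_re, hl]; simp
          have := hM ha0
          rw [hl1, hl2] at this
          linarith [hδ'.1]
        · have hb37 : -0.37 ≤ b := by
            have hE := Real.exp_pos (-t)
            rcases le_total δ Real.pi with h2 | h2
            · have h1 : 0 ≤ δ := by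
                by_contra h1
                push Not at h1
                have : 0 < Real.cos δ := Real.cos_pos_of_mem_Ioo ⟨by linarith, by linarith⟩
                have : 0 < a := by rw [ha, e1]; exact mul_pos hE this
                linarith
              have c0 := Real.sin_nonneg_of_nonneg_of_le_pi h1 h2
              have : 0 ≤ b := by rw [hb, e2]; exact mul_nonneg hE.le c0
              linarith
            · have c1 : -Real.sin δ = Real.sin (δ - Real.pi) := by rw [Real.sin_sub_pi]
              have c2 : Real.sin (δ - Real.pi) ≤ δ - Real.pi := Real.sin_le (by linarith)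
              have c3 : -Real.sin δ ≤ t := by linarith [hδ'.2]
              have c4 : Real.exp (-t) * t ≤ Real.exp (-1) := by
                have d1 := Real.add_one_le_exp (t - 1)
                have d2 : Real.exp (-1) = Real.exp (-t) * Real.exp (t - 1) := by
                  rw [← Real.exp_add]; congr 1; ring
                rw [d2]
                exact mul_le_mul_of_nonneg_left (by linarith) hE.le
              have c5 := mul_le_mul_of_nonneg_left c3 hE.le
              have := exp100
              rw [hb, e2]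
              linarith
          exact num_neg y0 hys s1 (by linarith) (by linarith)
  · rw [abs_le]; exact ⟨s2, by linarith⟩
  · rw [es]; linarith
  · rw [es]; linarith

end Pool.Agent.H774.Rad
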