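import Pool.Graph.R_pool_sql_team_seeded_620a6dc7.Helper665_SP.Link
import Pool.Agent.H774.W1c

/-! Arms that are Lipschitz graphs in the logarithmic coordinate: chords. -/

set_option autoImplicit false
set_option maxHeartbeats 1000000
open Complex Set Topology Metric

namespace Pool.Agent.H774.Rad

open Pool.Agent.H763R2 Pool.Agent.H763R2.An Pool.Agent.W675.Peg Pool.Agent.TH569.Peg
  Pool.Agent.Y535.PEG

variable {c : ℝ → ℂ}

/-- chords of the exponential -/
theorem exp_chord {f : ℝ → ℂ} {x ε : ℝ} (hε : 0 < ε) (hf : ContinuousAt f x) :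
    ∃ δ > 0, ∀ y z, |y - x| < δ → |z - x| < δ →
      ‖exp (f z - f x) - exp (f y - f x) - (f z - f y)‖ ≤ ε * ‖f z - f y‖ := by
  have h1 := (Complex.hasStrictDerivAt_exp 0).isLittleO.def hε
  have h2 : Filter.Tendsto (fun q : ℝ × ℝ => (f q.1 - f x, f q.2 - f x)) (𝓝 (x, x))
      (𝓝 ((0 : ℂ), (0 : ℂ))) := by
    have h0 : Filter.Tendsto (fun y => f y - f x) (𝓝 x) (𝓝 0) := by
      simpa using (hf.tendsto.sub_const (f x))
    rw [nhds_prod_eq, nhds_prod_eq]
    exact (h0.comp Filter.tendsto_fst).prodMk (h0.comp Filter.tendsto_snd)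
  have h3 := h2.eventually h1
  rw [Metric.eventually_nhds_iff] at h3
  obtain ⟨δ, hδ, h4⟩ := h3
  refine ⟨δ, hδ, fun y z hy hz => ?_⟩
  have h5 := h4 (y := (z, y)) (by
    rw [Prod.dist_eq, Real.dist_eq, Real.dist_eq]
    exact max_lt hz hy)
  simp only [Complex.exp_zero] at h5
  have e : f z - f x - (f y - f x) = f z - f y := by ring
  simpa [e] using h5

/-- the points of an arm satisfy the cone condition -/
theorem arm_cone {p : ℂ} {κ x A B σ : ℝ} {α : ℝ → ℝ} (hc : Continuous c) (k0 : 0 ≤ κ) (k1 : κ < 1)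
    (hα : ∀ u v, |α u - α v| ≤ κ * |u - v|) (hA : A < x) (hB : x < B)
    (h1 : ∀ y ∈ Icc A B, c y = p + ‖c y - p‖ * exp (α (Real.log ‖c y - p‖) * I))
    (hx : 0 < ‖c x - p‖) (hσ : σ = 1 ∨ σ = -1)
    (hm : ∀ y ∈ Icc A B, ∀ z ∈ Icc A B, y < z → σ * ‖c y - p‖ < σ * ‖c z - p‖) : Cone c x := by
  set n : ℝ → ℝ := fun x => ‖c x - p‖ with hn
  have nc : Continuous n := by rw [hn]; fun_prop
  have αc : Continuous α := by
    have : LipschitzWith ⟨κ, k0⟩ α := LipschitzWith.of_dist_le_mul (fun u v => by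
      rw [Real.dist_eq, Real.dist_eq]; exact hα u v)
    exact this.continuous
  set f : ℝ → ℂ := fun y => (Real.log (n y) : ℂ) + α (Real.log (n y)) * I with hf
  have fc : ContinuousAt f x := by
    have l : ContinuousAt (fun y => Real.log (n y)) x :=
      nc.continuousAt.log (show n x ≠ 0 from hx.ne')
    have l2 : ContinuousAt (fun y => α (Real.log (n y))) x :=
      ContinuousAt.comp (g := α) αc.continuousAt l
    exact (Complex.continuous_ofReal.continuousAt.comp l).add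
      ((Complex.continuous_ofReal.continuousAt.comp l2).mul continuousAt_const)
  obtain ⟨ε, hε⟩ : ∃ ε, ε = (1 - κ) / 5 := ⟨_, rfl⟩
  have hε0 : 0 < ε := by rw [hε]; linarith
  obtain ⟨δ1, hδ1, h2⟩ := exp_chord hε0 fc
  obtain ⟨δ2, hδ2, h3⟩ : ∃ δ > 0, ∀ y, |y - x| < δ → 0 < n y := by
    have := Metric.eventually_nhds_iff.1 (nc.continuousAt.eventually (lt_mem_nhds hx))
    obtain ⟨δ, hδ, h⟩ := this
    exact ⟨δ, hδ, fun y hy => h (by rwa [Real.dist_eq])⟩
  refine ⟨min (min δ1 δ2) (min (x - A) (B - x)), by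
    have : 0 < x - A := by linarith
    have : 0 < B - x := by linarith
    positivity, σ * exp (-(f x)), fun y z hy hz hyz => ?_⟩
  have hy' := lt_min_iff.1 hy
  have hz' := lt_min_iff.1 hz
  have hy1 := lt_min_iff.1 hy'.1
  have hz1 := lt_min_iff.1 hz'.1
  have hy2 := lt_min_iff.1 hy'.2
  have hz2 := lt_min_iff.1 hz'.2
  rw [abs_lt, abs_lt] at hy2 hz2
  have my : y ∈ Icc A B := ⟨by linarith [hy2.1.1], by linarith [hy2.2.2]⟩
  have mz : z ∈ Icc A B := ⟨by linarith [hz2.1.1], by linarith [hz2.2.2]⟩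
  have ny := h3 y hy1.2
  have nz := h3 z hz1.2
  have hlt := hm y my z mz hyz
  have key := h2 y z hy1.1 hz1.1
  have rep : ∀ y ∈ Icc A B, 0 < n y → c y - p = exp (f y) := by
    intro y hy hny
    rw [hf]
    simp only
    rw [Complex.exp_add, ← Complex.ofReal_exp, Real.exp_log hny]
    exact sub_eq_iff_eq_add'.2 (h1 y hy)
  have e1 : (σ : ℂ) * exp (-(f x)) * (c z - c y) =
      σ * (exp (f z - f x) - exp (f y - f x)) := by
    have : c z - c y = exp (f z) - exp (f y) := by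
      rw [← rep y my ny, ← rep z mz nz]; ring
    rw [this, Complex.exp_sub, Complex.exp_sub, Complex.exp_neg]
    ring
  obtain ⟨Er, hEr⟩ : ∃ Er, Er = exp (f z - f x) - exp (f y - f x) - (f z - f y) := ⟨_, rfl⟩
  rw [← hEr] at key
  have e2 : exp (f z - f x) - exp (f y - f x) = (f z - f y) + Er := by rw [hEr]; ring
  rw [e1, e2]
  obtain ⟨Λ, hΛ⟩ : ∃ Λ, Λ = Real.log (n z) - Real.log (n y) := ⟨_, rfl⟩
  obtain ⟨Ω, hΩ⟩ : ∃ Ω, Ω = α (Real.log (n z)) - α (Real.log (n y)) := ⟨_, rfl⟩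
  have fre : (f z - f y).re = Λ := by rw [hf, hΛ]; simp
  have fim : (f z - f y).im = Ω := by rw [hf, hΩ]; simp
  have ΩΛ : |Ω| ≤ κ * |Λ| := by rw [hΩ, hΛ]; exact hα _ _
  have fn : ‖f z - f y‖ ≤ 2 * |Λ| := by
    have := Complex.norm_le_abs_re_add_abs_im (f z - f y)
    rw [fre, fim] at this
    nlinarith [abs_nonneg Λ]
  have Ekey : ‖Er‖ ≤ 2 * ε * |Λ| := by
    have := mul_le_mul_of_nonneg_left fn hε0.le
    linarith
  have E1 := (Complex.abs_re_le_norm Er).trans Ekey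
  have E2 := (Complex.abs_im_le_norm Er).trans Ekey
  have hσΛ : σ * Λ = |Λ| ∧ 0 < |Λ| := by
    rcases hσ with h | h
    · rw [h, one_mul, one_mul] at hlt
      have : 0 < Λ := by
        rw [hΛ]; linarith [Real.log_lt_log ny hlt]
      rw [h, one_mul, abs_of_pos this]
      exact ⟨rfl, this⟩
    · have hlt' : n z < n y := by
        have : n z < n y := by rw [h] at hlt; linarith
        exact this
      have : Λ < 0 := by
        rw [hΛ]; linarith [Real.log_lt_log nz hlt']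
      rw [h, abs_of_neg this]
      exact ⟨by ring, by linarith⟩
  have sabs : |σ| = 1 := by rcases hσ with h | h <;> rw [h] <;> simp
  rw [Complex.re_ofReal_mul, Complex.im_ofReal_mul, Complex.add_re, Complex.add_im, fre, fim,
    mul_add σ Λ, hσΛ.1]
  have a1 : |σ * (Ω + Er.im)| ≤ κ * |Λ| + 2 * ε * |Λ| := by
    rw [abs_mul, sabs, one_mul]
    exact (abs_add_le _ _).trans (add_le_add ΩΛ E2)
  have a2 : -(2 * ε * |Λ|) ≤ σ * Er.re := by
    have : |σ * Er.re| ≤ 2 * ε * |Λ| := by rw [abs_mul, sabs, one_mul]; exact E1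
    exact (abs_le.1 this).1
  have a3 : (κ + 4 * ε) * |Λ| < 1 * |Λ| := mul_lt_mul_of_pos_right (by rw [hε]; linarith) hσΛ.2
  nlinarith

end Pool.Agent.H774.Rad
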