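import Pool.Agent.H774.W1d

/-! Arms that are Lipschitz graphs in the logarithmic coordinate: the region between them. -/

set_option autoImplicit false
set_option maxHeartbeats 1000000
open Complex Set Topology Metric

namespace Pool.Agent.H774.Rad

open Pool.Agent.H763R2 Pool.Agent.H763R2.An Pool.Agent.W675.Peg Pool.Agent.TH569.Peg
  Pool.Agent.Y535.PEG

variable {c : ℝ → ℂ}

/-- an arbitrary arc in a small disc with two arms -/
structure Arms (c : ℝ → ℂ) (a b : ℝ) (p : ℂ) (r κ s t : ℝ) (α β : ℝ → ℝ) : Prop where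
  r0 : 0 < r
  k0 : 0 ≤ κ
  k1 : κ < 1
  as : a ≤ s
  st : s ≤ t
  tb : t ≤ b
  ba : b ≤ a + 1
  core : ∀ x ∈ Icc s t, ‖c x - p‖ ≤ r
  ha : ∀ u v, |α u - α v| ≤ κ * |u - v|
  hb : ∀ u v, |β u - β v| ≤ κ * |u - v|
  h1 : ∀ x ∈ Icc a s, c x = p + ‖c x - p‖ * exp (α (Real.log ‖c x - p‖) * I)
  h2 : ∀ x ∈ Icc t b, c x = p + ‖c x - p‖ * exp (β (Real.log ‖c x - p‖) * I)
  far : ∀ x ∈ Icc b (a + 1), 6 * r ≤ ‖c x - p‖

variable {a b : ℝ} {p : ℂ} {r κ s t : ℝ} {α β : ℝ → ℝ}

theorem Arms.nA (H : Arms c a b p r κ s t α β) (L : Loop c) : 6 * r ≤ ‖c a - p‖ := by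
  have := H.far (a + 1) ⟨H.ba, le_rfl⟩
  rwa [L.per] at this

theorem Arms.nB (H : Arms c a b p r κ s t α β) : 6 * r ≤ ‖c b - p‖ := H.far b ⟨le_rfl, H.ba⟩

theorem Arms.nS (H : Arms c a b p r κ s t α β) : ‖c s - p‖ ≤ r := H.core s ⟨le_rfl, H.st⟩

theorem Arms.nT (H : Arms c a b p r κ s t α β) : ‖c t - p‖ ≤ r := H.core t ⟨H.st, le_rfl⟩

theorem nC (L : Loop c) (p : ℂ) : Continuous (fun x => ‖c x - p‖) := by
  have := L.cont
  fun_prop

theorem Arms.anti (H : Arms c a b p r κ s t α β) (L : Loop c) (J : Inj c) :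
    StrictAntiOn (fun x => ‖c x - p‖) (Icc a s) := by
  have na := H.nA L
  have ns := H.nS
  have hr := H.r0
  refine ContinuousOn.strictAntiOn_of_injOn_Icc H.as (by linarith)
    (nC L p).continuousOn ?_
  have key : ∀ x ∈ Icc a s, ∀ y ∈ Icc a s, ‖c x - p‖ = ‖c y - p‖ → ¬ x < y := by
    intro x hx y hy hxy h'
    have e3 : c x = c y := by rw [H.h1 x hx, H.h1 y hy, hxy]
    rcases lt_or_ge y (x + 1) with h'' | h''
    · exact J x y h' h'' e3
    · have hs : s = a + 1 := by linarith [hx.1, hy.2, H.st, H.tb, H.ba]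
      rw [hs, L.per] at ns
      linarith
  intro x hx y hy hxy
  by_contra hne
  rcases lt_or_gt_of_ne hne with h' | h'
  · exact key x hx y hy hxy h'
  · exact key y hy x hx hxy.symm h'

theorem Arms.mono (H : Arms c a b p r κ s t α β) (L : Loop c) (J : Inj c) :
    StrictMonoOn (fun x => ‖c x - p‖) (Icc t b) := by
  have nb := H.nB
  have nt := H.nT
  have hr := H.r0
  refine ContinuousOn.strictMonoOn_of_injOn_Icc H.tb (by linarith)
    (nC L p).continuousOn ?_
  have key : ∀ x ∈ Icc t b, ∀ y ∈ Icc t b, ‖c x - p‖ = ‖c y - p‖ → ¬ x < y := by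
    intro x hx y hy hxy h'
    have e3 : c x = c y := by rw [H.h2 x hx, H.h2 y hy, hxy]
    rcases lt_or_ge y (x + 1) with h'' | h''
    · exact J x y h' h'' e3
    · have hs : t = a := by linarith [hx.1, hy.2, H.st, H.as, H.ba]
      have := H.nA L
      rw [hs] at nt
      linarith
  intro x hx y hy hxy
  by_contra hne
  rcases lt_or_gt_of_ne hne with h' | h'
  · exact key x hx y hy hxy h'
  · exact key y hy x hx hxy.symm h'

theorem Arms.exA (H : Arms c a b p r κ s t α β) (L : Loop c) {ρ : ℝ} (h1 : r < ρ)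
    (h2 : ρ < 6 * r) : ∃ x, a < x ∧ x < s ∧ ‖c x - p‖ = ρ := by
  have na := H.nA L
  have ns := H.nS
  obtain ⟨x, hx, ex⟩ := intermediate_value_Icc' H.as (nC L p).continuousOn
    (show ρ ∈ Icc _ _ from ⟨by linarith, by linarith⟩)
  simp only at ex
  refine ⟨x, lt_of_le_of_ne hx.1 ?_, lt_of_le_of_ne hx.2 ?_, ex⟩
  · rintro rfl; linarith
  · rintro rfl; linarith

theorem Arms.exB (H : Arms c a b p r κ s t α β) (L : Loop c) {ρ : ℝ} (h1 : r < ρ)
    (h2 : ρ < 6 * r) : ∃ x, t < x ∧ x < b ∧ ‖c x - p‖ = ρ := by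
  have nb := H.nB
  have nt := H.nT
  obtain ⟨x, hx, ex⟩ := intermediate_value_Icc H.tb (nC L p).continuousOn
    (show ρ ∈ Icc _ _ from ⟨by linarith, by linarith⟩)
  simp only at ex
  refine ⟨x, lt_of_le_of_ne hx.1 ?_, lt_of_le_of_ne hx.2 ?_, ex⟩
  · rintro rfl; linarith
  · rintro rfl; linarith

theorem rep {z p : ℂ} {η : ℝ} (hn : 0 < ‖z - p‖) (h : z = p + ‖z - p‖ * exp (η * I)) :
    z - p = exp ((Real.log ‖z - p‖ : ℝ) + η * I) := by
  rw [Complex.exp_add, ← Complex.ofReal_exp, Real.exp_log hn]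
  exact sub_eq_iff_eq_add'.2 h

theorem Arms.gap_ne (H : Arms c a b p r κ s t α β) (L : Loop c) (J : Inj c) {u : ℝ}
    (hu : u ∈ Ioo (Real.log r) (Real.log (6 * r))) (m : ℤ) :
    β u - α u ≠ m * (2 * Real.pi) := by
  intro he
  have hr := H.r0
  have e0 := Real.exp_pos u
  have e1 : r < Real.exp u := by
    rw [← Real.exp_log hr]; exact Real.exp_lt_exp.2 hu.1
  have e2 : Real.exp u < 6 * r := by
    rw [← Real.exp_log (show 0 < 6 * r by linarith)]; exact Real.exp_lt_exp.2 hu.2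
  obtain ⟨x, x1, x2, x3⟩ := H.exA L e1 e2
  obtain ⟨y, y1, y2, y3⟩ := H.exB L e1 e2
  have k1 := H.h1 x ⟨x1.le, x2.le⟩
  have k2 := H.h2 y ⟨y1.le, y2.le⟩
  rw [x3, Real.log_exp] at k1
  rw [y3, Real.log_exp] at k2
  have : c x = c y := by
    rw [k1, k2]
    have e : ((β u : ℝ) : ℂ) * I = (α u : ℝ) * I + m * (2 * Real.pi * I) := by
      have : β u = α u + m * (2 * Real.pi) := by linarith
      rw [this]; push_cast; ring
    rw [e, Complex.exp_add, Complex.exp_int_mul_two_pi_mul_I, mul_one]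
  exact J x y (by linarith [H.st]) (by linarith [H.ba]) this

theorem cont_of_lip {κ : ℝ} {α : ℝ → ℝ} (k0 : 0 ≤ κ) (hα : ∀ u v, |α u - α v| ≤ κ * |u - v|) :
    Continuous α := by
  have : LipschitzWith ⟨κ, k0⟩ α := LipschitzWith.of_dist_le_mul (fun u v => by
    rw [Real.dist_eq, Real.dist_eq]; exact hα u v)
  exact this.continuous

theorem Arms.gap (H : Arms c a b p r κ s t α β) (L : Loop c) (J : Inj c) {v : ℝ}
    (hv : v ∈ Ioo (Real.log r) (Real.log (6 * r))) (h1 : 0 < β v - α v)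
    (h2 : β v - α v < 2 * Real.pi) {u : ℝ} (hu : u ∈ Ioo (Real.log r) (Real.log (6 * r))) :
    0 < β u - α u ∧ β u - α u < 2 * Real.pi := by
  have hcont : ContinuousOn (fun u => β u - α u) (uIcc u v) :=
    ((cont_of_lip H.k0 H.hb).sub (cont_of_lip H.k0 H.ha)).continuousOn
  have hsub : uIcc u v ⊆ Ioo (Real.log r) (Real.log (6 * r)) :=
    ordConnected_Ioo.uIcc_subset hu hv
  have iv := intermediate_value_uIcc hcont
  constructor
  · by_contra h3
    push Not at h3
    obtain ⟨w, hw, e⟩ := iv (show (0:ℝ) ∈ uIcc _ _ from by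
      rw [mem_uIcc]; exact Or.inl ⟨h3, h1.le⟩)
    exact H.gap_ne L J (hsub hw) 0 (by simpa using e)
  · by_contra h3
    push Not at h3
    obtain ⟨w, hw, e⟩ := iv (show (2 * Real.pi) ∈ uIcc _ _ from by
      rw [mem_uIcc]; exact Or.inr ⟨h2.le, h3⟩)
    exact H.gap_ne L J (hsub hw) 1 (by simpa using e)

/-- the region between the arms -/
def Reg (p : ℂ) (r : ℝ) (α β : ℝ → ℝ) : Set ℂ :=
  (fun q : ℝ × ℝ => p + exp ((q.1 : ℂ) +
    ((q.2 * α q.1 + (1 - q.2) * (β q.1 - 2 * Real.pi) : ℝ) : ℂ) * I)) ''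
    (Ioo (Real.log r) (Real.log (6 * r)) ×ˢ Ioo (0:ℝ) 1)

theorem Arms.reg_pre (H : Arms c a b p r κ s t α β) : IsPreconnected (Reg p r α β) := by
  have h1 := cont_of_lip H.k0 H.ha
  have h2 := cont_of_lip H.k0 H.hb
  apply IsPreconnected.image (isPreconnected_Ioo.prod isPreconnected_Ioo)
  apply Continuous.continuousOn
  fun_prop

theorem mem_reg {u η : ℝ} (hu : u ∈ Ioo (Real.log r) (Real.log (6 * r)))
    (h1 : β u - 2 * Real.pi < η) (h2 : η < α u) : p + exp ((u : ℂ) + η * I) ∈ Reg p r α β := by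
  have h3 : 0 < α u - (β u - 2 * Real.pi) := by linarith
  refine ⟨(u, (η - (β u - 2 * Real.pi)) / (α u - (β u - 2 * Real.pi))), ⟨hu, ?_, ?_⟩, ?_⟩
  · exact div_pos (by linarith) h3
  · rw [div_lt_one h3]; linarith
  · have e : (η - (β u - 2 * Real.pi)) / (α u - (β u - 2 * Real.pi)) * α u +
        (1 - (η - (β u - 2 * Real.pi)) / (α u - (β u - 2 * Real.pi))) * (β u - 2 * Real.pi) =
        η := by
      field_simp
      ring
    simp only
    rw [e]

theorem of_reg {z : ℂ} (hz : z ∈ Reg p r α β)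
    (hg : ∀ u ∈ Ioo (Real.log r) (Real.log (6 * r)), β u - 2 * Real.pi < α u) :
    ∃ u η : ℝ, u ∈ Ioo (Real.log r) (Real.log (6 * r)) ∧ β u - 2 * Real.pi < η ∧ η < α u ∧
      z = p + exp ((u : ℂ) + η * I) := by
  obtain ⟨⟨u, l⟩, ⟨hu, hl0, hl1⟩, rfl⟩ := hz
  have h := hg u hu
  refine ⟨u, _, hu, ?_, ?_, rfl⟩
  · simp only at *
    nlinarith
  · simp only at *
    nlinarith

theorem exp_norm (u η : ℝ) : ‖exp ((u : ℂ) + η * I)‖ = Real.exp u := by
  rw [Complex.norm_exp]; simp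

theorem exp_inj {u η ζ : ℝ} (h : exp ((u : ℂ) + η * I) = exp ((u : ℂ) + ζ * I)) :
    ∃ m : ℤ, η = ζ + m * (2 * Real.pi) := by
  obtain ⟨m, hm⟩ := Complex.exp_eq_exp_iff_exists_int.1 h
  refine ⟨m, ?_⟩
  have := congrArg Complex.im hm
  simpa using this

theorem Arms.reg_avoid (H : Arms c a b p r κ s t α β) (L : Loop c)
    (hg : ∀ u ∈ Ioo (Real.log r) (Real.log (6 * r)), 0 < β u - α u ∧ β u - α u < 2 * Real.pi) :
    ∀ z ∈ Reg p r α β, z ∉ range c := by
  rintro z hz ⟨w, rfl⟩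
  obtain ⟨x, hx, hxw⟩ : ∃ x ∈ Icc a (a + 1), c x = c w := by
    refine ⟨a + Int.fract (w - a), ⟨by linarith [Int.fract_nonneg (w - a)],
      by linarith [Int.fract_lt_one (w - a)]⟩, ?_⟩
    have := L.per_int (a + Int.fract (w - a)) ⌊w - a⌋
    rw [← this]
    congr 1
    rw [add_assoc, Int.fract_add_floor]
    ring
  rw [← hxw] at hz
  obtain ⟨u, η, hu, hη1, hη2, hz⟩ := of_reg hz (fun u hu => by linarith [(hg u hu).2])
  have hr := H.r0
  have hπ := Real.pi_pos
  have e1 : r < Real.exp u := by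
    rw [← Real.exp_log hr]; exact Real.exp_lt_exp.2 hu.1
  have e2 : Real.exp u < 6 * r := by
    rw [← Real.exp_log (show 0 < 6 * r by linarith)]; exact Real.exp_lt_exp.2 hu.2
  have hz' : c x - p = exp ((u : ℂ) + η * I) := by rw [hz]; ring
  have hn : ‖c x - p‖ = Real.exp u := by rw [hz', exp_norm]
  have h0 : 0 < ‖c x - p‖ := by rw [hn]; exact Real.exp_pos u
  have g := hg u hu
  rcases le_total x s with hxs | hxs
  · have := rep h0 (H.h1 x ⟨hx.1, hxs⟩)
    rw [hn, Real.log_exp, hz'] at this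
    obtain ⟨m, hm⟩ := exp_inj this
    have m1 : (m : ℝ) < 0 := by
      by_contra h
      push Not at h
      nlinarith
    have m2 : (-1 : ℝ) < m := by
      by_contra h
      push Not at h
      nlinarith
    have m1' : m < 0 := by exact_mod_cast m1
    have m2' : -1 < m := by exact_mod_cast m2
    omega
  · rcases le_total x t with hxt | hxt
    · have := H.core x ⟨hxs, hxt⟩
      linarith
    · rcases le_total x b with hxb | hxb
      · have := rep h0 (H.h2 x ⟨hxt, hxb⟩)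
        rw [hn, Real.log_exp, hz'] at this
        obtain ⟨m, hm⟩ := exp_inj this
        have m1 : (m : ℝ) < 0 := by
          by_contra h
          push Not at h
          nlinarith
        have m2 : (-1 : ℝ) < m := by
          by_contra h
          push Not at h
          nlinarith
        have m1' : m < 0 := by exact_mod_cast m1
        have m2' : -1 < m := by exact_mod_cast m2
        omega
      · have := H.far x ⟨hxb, hx.2⟩
        linarith

end Pool.Agent.H774.Rad
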