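import Pool.Agent.H774.W1e

/-! Arms that are Lipschitz graphs in the logarithmic coordinate: the family of chords. -/

set_option autoImplicit false
set_option maxHeartbeats 1000000
open Complex Set Topology Metric

namespace Pool.Agent.H774.Rad

open Pool.Agent.H763R2 Pool.Agent.H763R2.An Pool.Agent.W675.Peg Pool.Agent.TH569.Peg
  Pool.Agent.Y535.PEG

variable {c : ℝ → ℂ} {a b : ℝ} {p : ℂ} {r κ s t : ℝ} {α β : ℝ → ℝ}

theorem quot (l l' η η' : ℝ) : exp ((l : ℂ) + η * I) / exp ((l' : ℂ) + η' * I) =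
    exp (-((l' - l : ℝ) : ℂ) + ((η - η' : ℝ) : ℂ) * I) := by
  rw [← Complex.exp_sub]; congr 1; push_cast; ring

theorem conj_exp (T δ : ℝ) : (starRingEnd ℂ) (exp (-(T : ℂ) + (δ : ℂ) * I)) =
    exp (-(T : ℂ) + ((-δ : ℝ) : ℂ) * I) := by
  rw [← Complex.exp_conj]
  congr 1
  simp

theorem Arms.good_left (H : Arms c a b p r κ s t α β) (L : Loop c) (J : Inj c)
    (p0 : 0 < β (Real.log (5 / 2 * r)) - α (Real.log (5 / 2 * r)))
    (p1 : β (Real.log (5 / 2 * r)) - α (Real.log (5 / 2 * r)) ≤ Real.pi)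
    (hψ : Real.cos (β (Real.log (5 / 2 * r)) - α (Real.log (5 / 2 * r))) ≤
      (1 - κ ^ 2) / (1 + κ ^ 2)) :
    ∃ s' t', a < s' ∧ s' < s ∧ t < t' ∧ t' < b ∧ (∀ x, a < x → x ≤ s' → Cone c x) ∧
      (∀ x, t' ≤ x → x < b → Cone c x) ∧ ∃ U : Set ℂ, IsPreconnected U ∧
      (∀ z ∈ U, z ∉ range c) ∧ (∀ y ∈ Ioc s' t', c s' + I * (c y - c s') ∈ U) ∧
      (∀ x ∈ Ico s' t', c t' + -I * (c x - c t') ∈ U) := by
  have hr := H.r0
  have k0 := H.k0
  have k1 := H.k1
  have hπ := Real.pi_gt_three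
  obtain ⟨h, hh⟩ : ∃ h, h = 5 / 2 * r := ⟨_, rfl⟩
  rw [← hh] at p0 p1 hψ
  have h0 : 0 < h := by linarith
  obtain ⟨lh, hlh⟩ : ∃ lh, lh = Real.log h := ⟨_, rfl⟩
  rw [← hlh] at p0 p1 hψ
  obtain ⟨ψ, eψ⟩ : ∃ ψ, ψ = β lh - α lh := ⟨_, rfl⟩
  rw [← eψ] at p0 p1 hψ
  have elh : Real.exp lh = h := by rw [hlh, Real.exp_log h0]
  have an := H.anti L J
  have mo := H.mono L J
  obtain ⟨s', s1, s2, es⟩ := H.exA L (show r < h by linarith) (show h < 6 * r by linarith)
  obtain ⟨t', t1, t2, et⟩ := H.exB L (show r < h by linarith) (show h < 6 * r by linarith)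
  have ms' : s' ∈ Icc a s := ⟨s1.le, s2.le⟩
  have mt' : t' ∈ Icc t b := ⟨t1.le, t2.le⟩
  have st' : s' < t' := by linarith [H.st]
  -- the gap
  have hlu : lh ∈ Ioo (Real.log r) (Real.log (6 * r)) := by
    rw [hlh]
    exact ⟨Real.log_lt_log hr (by linarith), Real.log_lt_log h0 (by linarith)⟩
  have hg := fun u hu => H.gap L J hlu (by linarith) (by linarith) (u := u) hu
  -- representations
  have rA : c s' - p = exp ((lh : ℂ) + α lh * I) := by
    have := rep (by rw [es]; exact h0) (H.h1 s' ms')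
    rwa [es, ← hlh] at this
  have rB : c t' - p = exp ((lh : ℂ) + β lh * I) := by
    have := rep (by rw [et]; exact h0) (H.h2 t' mt')
    rwa [et, ← hlh] at this
  have A0 : c s' - p ≠ 0 := by rw [rA]; exact Complex.exp_ne_zero _
  have B0 : c t' - p ≠ 0 := by rw [rB]; exact Complex.exp_ne_zero _
  refine ⟨s', t', s1, s2, t1, t2, ?_, ?_, ?_⟩
  · intro x hx1 hx2
    have mx : x ∈ Icc a s := ⟨hx1.le, by linarith⟩
    refine arm_cone (p := p) (κ := κ) (A := a) (B := s) (σ := -1) (α := α) L.cont k0 k1 H.ha hx1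
      (by linarith) H.h1 ?_ (Or.inr rfl) ?_
    · have : ‖c s - p‖ < ‖c x - p‖ := an mx ⟨H.as, le_rfl⟩ (by linarith)
      exact (norm_nonneg _).trans_lt this
    · intro y hy z hz hyz
      have : ‖c z - p‖ < ‖c y - p‖ := an hy hz hyz
      linarith
  · intro x hx1 hx2
    have mx : x ∈ Icc t b := ⟨by linarith, hx2.le⟩
    refine arm_cone (p := p) (κ := κ) (A := t) (B := b) (σ := 1) (α := β) L.cont k0 k1 H.hb
      (by linarith) hx2 H.h2 ?_ (Or.inl rfl) ?_
    · have : ‖c t - p‖ < ‖c x - p‖ := mo ⟨le_rfl, H.tb⟩ mx (by linarith)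
      exact (norm_nonneg _).trans_lt this
    · intro y hy z hz hyz
      have : ‖c y - p‖ < ‖c z - p‖ := mo hy hz hyz
      linarith
  -- the quotients
  have small : ∀ z e : ℂ, ‖e‖ = h → ‖z‖ ≤ r → ‖z / e‖ ≤ 2 / 5 := by
    intro z e h1 h2
    rw [norm_div, h1, div_le_iff₀ h0]
    linarith
  have Q1 : ∀ y ∈ Ioc s' t', Adm κ ψ ((c y - p) / (c s' - p)) := by
    intro y hy
    by_cases hs : ‖c y - p‖ ≤ r
    · exact Or.inl (small _ _ es hs)
    push Not at hs
    have hn : 0 < ‖c y - p‖ := by linarith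
    rcases le_total y s with h1 | h1
    · have my : y ∈ Icc a s := ⟨by linarith [hy.1], h1⟩
      have hlt : ‖c y - p‖ < h := by rw [← es]; exact an ms' my hy.1
      have hl : Real.log ‖c y - p‖ < lh := by rw [hlh]; exact Real.log_lt_log hn hlt
      refine Or.inr (Or.inl ⟨lh - Real.log ‖c y - p‖, α (Real.log ‖c y - p‖) - α lh,
        by linarith, ?_, ?_⟩)
      · have := H.ha (Real.log ‖c y - p‖) lh
        rwa [abs_sub_comm (Real.log _), abs_of_pos (show 0 < lh - Real.log ‖c y - p‖ by linarith)]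
          at this
      · conv_lhs => rw [rep hn (H.h1 y my), rA]
        exact quot _ _ _ _
    · rcases le_total y t with h2 | h2
      · have := H.core y ⟨h1, h2⟩
        linarith
      · have my : y ∈ Icc t b := ⟨h2, by linarith [hy.2]⟩
        have hlt : ‖c y - p‖ ≤ h := by rw [← et]; exact mo.monotoneOn my mt' hy.2
        have hl : Real.log ‖c y - p‖ ≤ lh := by rw [hlh]; exact Real.log_le_log hn hlt
        refine Or.inr (Or.inr ⟨lh - Real.log ‖c y - p‖, β (Real.log ‖c y - p‖) - α lh,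
          by linarith, ?_, ?_⟩)
        · have := H.hb (Real.log ‖c y - p‖) lh
          rw [abs_sub_comm (Real.log _),
            abs_of_nonneg (show 0 ≤ lh - Real.log ‖c y - p‖ by linarith)] at this
          have e : β (Real.log ‖c y - p‖) - α lh - ψ = β (Real.log ‖c y - p‖) - β lh := by
            rw [eψ]; ring
          rwa [e]
        · conv_lhs => rw [rep hn (H.h2 y my), rA]
          exact quot _ _ _ _
  have Q2 : ∀ x ∈ Ico s' t', Adm κ ψ ((starRingEnd ℂ) ((c x - p) / (c t' - p))) := by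
    intro x hx
    by_cases hs : ‖c x - p‖ ≤ r
    · left
      rw [Complex.norm_conj]
      exact small _ _ et hs
    push Not at hs
    have hn : 0 < ‖c x - p‖ := by linarith
    rcases le_total x s with h1 | h1
    · have mx : x ∈ Icc a s := ⟨by linarith [hx.1], h1⟩
      have hlt : ‖c x - p‖ ≤ h := by rw [← es]; exact an.antitoneOn ms' mx hx.1
      have hl : Real.log ‖c x - p‖ ≤ lh := by rw [hlh]; exact Real.log_le_log hn hlt
      refine Or.inr (Or.inr ⟨lh - Real.log ‖c x - p‖, -(α (Real.log ‖c x - p‖) - β lh),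
          by linarith, ?_, ?_⟩)
      · have := H.ha (Real.log ‖c x - p‖) lh
        rw [abs_sub_comm (Real.log _),
          abs_of_nonneg (show 0 ≤ lh - Real.log ‖c x - p‖ by linarith)] at this
        have e : -(α (Real.log ‖c x - p‖) - β lh) - ψ = -(α (Real.log ‖c x - p‖) - α lh) := by
          rw [eψ]; ring
        rwa [e, abs_neg]
      · conv_lhs => rw [rep hn (H.h1 x mx), rB, quot]
        exact conj_exp _ _
    · rcases le_total x t with h2 | h2
      · have := H.core x ⟨h1, h2⟩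
        linarith
      · have mx : x ∈ Icc t b := ⟨h2, by linarith [hx.2]⟩
        have hlt : ‖c x - p‖ < h := by rw [← et]; exact mo mx mt' hx.2
        have hl : Real.log ‖c x - p‖ < lh := by rw [hlh]; exact Real.log_lt_log hn hlt
        refine Or.inr (Or.inl ⟨lh - Real.log ‖c x - p‖, -(β (Real.log ‖c x - p‖) - β lh),
          by linarith, ?_, ?_⟩)
        · have := H.hb (Real.log ‖c x - p‖) lh
          rw [abs_sub_comm (Real.log _), abs_of_pos (show 0 < lh - Real.log ‖c x - p‖ by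
            linarith)] at this
          rwa [abs_neg]
        · conv_lhs => rw [rep hn (H.h2 x mx), rB, quot]
          exact conj_exp _ _
  -- the logarithm of the distance
  have rng : ∀ S : ℝ, 2 / 5 < Real.exp S → Real.exp S < 12 / 5 →
      lh + S ∈ Ioo (Real.log r) (Real.log (6 * r)) := by
    intro S h1 h2
    have e : Real.exp (lh + S) = h * Real.exp S := by rw [Real.exp_add, elh]
    constructor
    · rw [Real.log_lt_iff_lt_exp hr, e, hh]
      nlinarith
    · rw [Real.lt_log_iff_exp_lt (by linarith), e, hh]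
      nlinarith
  refine ⟨Reg p r α β, H.reg_pre, H.reg_avoid L hg, fun y g2 => ?_, fun x g2 => ?_⟩
  · rw [show c s' + I * (c y - c s') = DD c s' y by rw [DD_eq]]
    obtain ⟨S, Y, c1, c2, c3, c4, c5, c6⟩ := Rad.core k0 k1 p0 p1 hψ (Q1 y g2)
    have e1 : DD c s' y = p + exp (((lh + S : ℝ) : ℂ) + ((α lh - Y : ℝ) : ℂ) * I) := by
      have e2 : exp (((lh + S : ℝ) : ℂ) + ((α lh - Y : ℝ) : ℂ) * I) =
          (c s' - p) * exp ((S : ℂ) - Y * I) := by
        rw [rA, ← Complex.exp_add]; congr 1; push_cast; ring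
      rw [e2, ← c1, DD_eq]
      field_simp
      ring
    rw [e1]
    have a1 := H.ha (lh + S) lh
    have a2 := H.hb (lh + S) lh
    rw [add_sub_cancel_left] at a1 a2
    rw [abs_le] at a1 a2
    have a3 : κ * |S| ≤ 9 / 10 := by nlinarith [abs_nonneg S]
    refine mem_reg (rng S c5 c6) ?_ ?_
    · linarith [a2.2]
    · linarith [a1.1]
  · rw [show c t' + -I * (c x - c t') = CC c x t' by rw [CC_eq]; ring]
    obtain ⟨S, Y, c1, c2, c3, c4, c5, c6⟩ := Rad.core k0 k1 p0 p1 hψ (Q2 x g2)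
    have e1 : CC c x t' = p + exp (((lh + S : ℝ) : ℂ) + ((β lh + Y - 2 * Real.pi : ℝ) : ℂ) * I) := by
      have e0 : 1 + I - I * ((c x - p) / (c t' - p)) = exp ((S : ℂ) + Y * I) := by
        have := congrArg (starRingEnd ℂ) c1
        rw [← Complex.exp_conj] at this
        simp only [map_add, map_sub, map_mul, map_one, Complex.conj_I, Complex.conj_conj,
          Complex.conj_ofReal] at this
        have e : (S : ℂ) - Y * -I = S + Y * I := by ring
        rw [e] at this
        linear_combination this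
      have e2 : exp (((lh + S : ℝ) : ℂ) + ((β lh + Y - 2 * Real.pi : ℝ) : ℂ) * I) =
          (c t' - p) * exp ((S : ℂ) + Y * I) := by
        have e3 : exp (((lh + S : ℝ) : ℂ) + ((β lh + Y - 2 * Real.pi : ℝ) : ℂ) * I) =
            exp (((lh : ℂ) + β lh * I) + ((S : ℂ) + Y * I) - 2 * Real.pi * I) := by
          congr 1; push_cast; ring
        rw [e3, Complex.exp_sub, Complex.exp_two_pi_mul_I, div_one, rB, Complex.exp_add]
      rw [e2, ← e0, CC_eq]
      field_simp
      ring
    rw [e1]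
    have a1 := H.ha (lh + S) lh
    have a2 := H.hb (lh + S) lh
    rw [add_sub_cancel_left] at a1 a2
    rw [abs_le] at a1 a2
    have a3 : κ * |S| ≤ 9 / 10 := by nlinarith [abs_nonneg S]
    refine mem_reg (rng S c5 c6) ?_ ?_
    · linarith [a2.2]
    · linarith [a1.1]

end Pool.Agent.H774.Rad
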