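import Pool.Agent.H774.W1f

/-! Arms that are Lipschitz graphs in the logarithmic coordinate: both orientations. -/

set_option autoImplicit false
set_option maxHeartbeats 1000000
open Complex Set Topology Metric

namespace Pool.Agent.H774.Rad

open Pool.Agent.H763R2 Pool.Agent.H763R2.An Pool.Agent.W675.Peg Pool.Agent.TH569.Peg
  Pool.Agent.Y535.PEG Pool.Agent.Helper665_SP

variable {c : ℝ → ℂ} {a b : ℝ} {p : ℂ} {r κ s t : ℝ} {α β : ℝ → ℝ}

theorem Arms.shift (H : Arms c a b p r κ s t α β) (m : ℤ) :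
    Arms c a b p r κ s t α (fun u => β u - m * (2 * Real.pi)) := by
  refine ⟨H.r0, H.k0, H.k1, H.as, H.st, H.tb, H.ba, H.core, H.ha, ?_, H.h1, ?_, H.far⟩
  · intro u v
    have := H.hb u v
    rwa [sub_sub_sub_cancel_right]
  · intro x hx
    have e : ((β (Real.log ‖c x - p‖) - m * (2 * Real.pi) : ℝ) : ℂ) * I =
        (β (Real.log ‖c x - p‖) : ℝ) * I - m * (2 * Real.pi * I) := by push_cast; ring
    rw [e, Complex.exp_sub, Complex.exp_int_mul_two_pi_mul_I, div_one]
    exact H.h2 x hx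

theorem Arms.conj (H : Arms c a b p r κ s t α β) :
    Arms (fun x => (starRingEnd ℂ) (c x)) a b ((starRingEnd ℂ) p) r κ s t (fun u => -α u)
      (fun u => -β u) := by
  have hn : ∀ x, ‖(starRingEnd ℂ) (c x) - (starRingEnd ℂ) p‖ = ‖c x - p‖ := fun x => by
    rw [← map_sub, Complex.norm_conj]
  refine ⟨H.r0, H.k0, H.k1, H.as, H.st, H.tb, H.ba, ?_, ?_, ?_, ?_, ?_, ?_⟩
  · intro x hx
    rw [hn]; exact H.core x hx
  · intro u v
    rw [show -α u - -α v = -(α u - α v) by ring, abs_neg]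
    exact H.ha u v
  · intro u v
    rw [show -β u - -β v = -(β u - β v) by ring, abs_neg]
    exact H.hb u v
  · intro x hx
    rw [hn]
    conv_lhs => rw [H.h1 x hx]
    rw [map_add, map_mul, ← Complex.exp_conj, map_mul, Complex.conj_I, Complex.conj_ofReal,
      Complex.conj_ofReal]
    congr 3
    push_cast
    ring
  · intro x hx
    rw [hn]
    conv_lhs => rw [H.h2 x hx]
    rw [map_add, map_mul, ← Complex.exp_conj, map_mul, Complex.conj_I, Complex.conj_ofReal,
      Complex.conj_ofReal]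
    congr 3
    push_cast
    ring
  · intro x hx
    rw [hn]; exact H.far x hx

theorem cone_conj {x : ℝ} (h : Cone (fun x => (starRingEnd ℂ) (c x)) x) : Cone c x := by
  obtain ⟨ρ, hρ, w, H⟩ := h
  refine ⟨ρ, hρ, (starRingEnd ℂ) w, fun y z hy hz hyz => ?_⟩
  have := H y z hy hz hyz
  have e : (starRingEnd ℂ) w * (c z - c y) =
      (starRingEnd ℂ) (w * ((starRingEnd ℂ) (c z) - (starRingEnd ℂ) (c y))) := by
    simp
  rw [e, Complex.conj_im, Complex.conj_re, abs_neg]
  exact this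

theorem Arms.good (H : Arms c a b p r κ s t α β) (L : Loop c) (J : Inj c)
    (hψ : Real.cos (β (Real.log (5 / 2 * r)) - α (Real.log (5 / 2 * r))) ≤
      (1 - κ ^ 2) / (1 + κ ^ 2)) :
    ∃ s' t', a < s' ∧ s' < s ∧ t < t' ∧ t' < b ∧ (∀ x, a < x → x ≤ s' → Cone c x) ∧
      (∀ x, t' ≤ x → x < b → Cone c x) ∧ Trn c s' t' := by
  have hr := H.r0
  have hπ := Real.pi_pos
  obtain ⟨lh, hlh⟩ : ∃ lh, lh = Real.log (5 / 2 * r) := ⟨_, rfl⟩
  have hlu : lh ∈ Ioo (Real.log r) (Real.log (6 * r)) := by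
    rw [hlh]
    exact ⟨Real.log_lt_log hr (by linarith), Real.log_lt_log (by linarith) (by linarith)⟩
  rw [← hlh] at hψ
  obtain ⟨m, hm⟩ : ∃ m : ℤ, m = ⌊(β lh - α lh) / (2 * Real.pi)⌋ := ⟨_, rfl⟩
  have h1 : m * (2 * Real.pi) ≤ β lh - α lh := by
    have := Int.floor_le ((β lh - α lh) / (2 * Real.pi))
    rw [← hm, le_div_iff₀ (by positivity)] at this
    exact this
  have h2 : β lh - α lh < (m + 1) * (2 * Real.pi) := by
    have := Int.lt_floor_add_one ((β lh - α lh) / (2 * Real.pi))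
    rw [← hm, div_lt_iff₀ (by positivity)] at this
    exact this
  have h3 : m * (2 * Real.pi) < β lh - α lh :=
    lt_of_le_of_ne h1 (fun h => H.gap_ne L J hlu m h.symm)
  rcases le_or_gt (β lh - α lh - m * (2 * Real.pi)) Real.pi with h4 | h4
  · obtain ⟨s', t', e1, e2, e3, e4, e5, e6, U, e7, e8, e9, e10⟩ := (H.shift m).good_left L J
      (by rw [← hlh]; linarith) (by rw [← hlh]; linarith)
      (by
        rw [← hlh, show β lh - m * (2 * Real.pi) - α lh = β lh - α lh - m * (2 * Real.pi) by ring,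
          Real.cos_sub_int_mul_two_pi]
        exact hψ)
    exact ⟨s', t', e1, e2, e3, e4, e5, e6, U, I, I, -I, Or.inl rfl, Or.inl rfl, Or.inl rfl, e7,
      e8, e9, e10⟩
  · have L' : Loop (fun x => (starRingEnd ℂ) (c x)) :=
      ⟨Complex.continuous_conj.comp L.cont, fun x => by simp only [L.per]⟩
    have J' : Inj (fun x => (starRingEnd ℂ) (c x)) := fun x y h1 h2 he =>
      J x y h1 h2 ((starRingEnd ℂ).injective he)
    obtain ⟨s', t', e1, e2, e3, e4, e5, e6, U, e7, e8, e9, e10⟩ := (H.conj.shift (-(m + 1))).good_left L' J'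
      (by rw [← hlh]; push_cast; linarith)
      (by rw [← hlh]; push_cast; linarith)
      (by
        rw [← hlh, show -β lh - ((-(m + 1) : ℤ) : ℝ) * (2 * Real.pi) - -α lh =
          -(β lh - α lh) - ((-(m + 1) : ℤ) : ℝ) * (2 * Real.pi) by ring,
          Real.cos_sub_int_mul_two_pi, Real.cos_neg]
        exact hψ)
    refine ⟨s', t', e1, e2, e3, e4, fun x hx hx' => cone_conj (e5 x hx hx'),
      fun x hx hx' => cone_conj (e6 x hx hx'), (starRingEnd ℂ) '' U, -I, -I, I, Or.inr rfl,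
      Or.inl rfl, Or.inl (neg_neg I).symm, e7.image _ Complex.continuous_conj.continuousOn, ?_,
      ?_, ?_⟩
    · rintro _ ⟨z, hz, rfl⟩ ⟨x, hx⟩
      refine e8 z hz ⟨x, ?_⟩
      simp only
      rw [hx, Complex.conj_conj]
    · intro y hy
      exact ⟨_, e9 y hy, by simp⟩
    · intro y hy
      exact ⟨_, e10 y hy, by simp⟩

end Pool.Agent.H774.Rad
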