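import Pool.Agent.H774.W1g

/-! Wide spirals are harmless points; gluing. -/

set_option autoImplicit false
set_option maxHeartbeats 1000000
open Complex Set Topology Metric

namespace Pool.Agent.H774.Rad

open Pool.Agent.H763R2 Pool.Agent.H763R2.An Pool.Agent.W675.Peg Pool.Agent.TH569.Peg
  Pool.Agent.Y535.PEG Pool.Agent.Helper665_SP Pool.Agent.Helper584_CU
open Pool.Agent.H763R2.Dm (NoSq)

variable {c : ℝ → ℂ}

theorem wide_sg (L : Loop c) (J : Inj c) (nosq : NoSq (range c)) {s ρ κ : ℝ} {α β : ℝ → ℝ}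
    (hρ : 0 < ρ) (hρ2 : ρ ≤ 1 / 4) (k0 : 0 ≤ κ) (k1 : κ < 1)
    (ha : ∀ u v, |α u - α v| ≤ κ * |u - v|) (hb : ∀ u v, |β u - β v| ≤ κ * |u - v|)
    (h1 : ∀ x ∈ Icc (s - ρ) s, c x = c s + ‖c x - c s‖ * exp (α (Real.log ‖c x - c s‖) * I))
    (h2 : ∀ x ∈ Icc s (s + ρ), c x = c s + ‖c x - c s‖ * exp (β (Real.log ‖c x - c s‖) * I))
    (hw : ∀ u0 : ℝ, ∃ u < u0, Real.cos (β u - α u) ≤ (1 - κ ^ 2) / (1 + κ ^ 2)) : Sg c s := by
  obtain ⟨m, hm, hmin⟩ := (isCompact_Icc (a := s + ρ) (b := s - ρ + 1)).exists_isMinOn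
    ⟨s + ρ, le_rfl, by linarith⟩ (nC L (c s)).continuousOn
  obtain ⟨d, hd⟩ : ∃ d, d = ‖c m - c s‖ := ⟨_, rfl⟩
  have d0 : 0 < d := by
    rw [hd, norm_pos_iff]
    intro h
    exact J s m (by linarith [hm.1]) (by linarith [hm.2]) (sub_eq_zero.1 h).symm
  have hfar : ∀ x ∈ Icc (s + ρ) (s - ρ + 1), d ≤ ‖c x - c s‖ := fun x hx => by
    rw [hd]; exact hmin hx
  obtain ⟨u, hu, hcos⟩ := hw (Real.log (5 / 12 * d))
  have eu : Real.exp u < 5 / 12 * d := by
    rwa [← Real.lt_log_iff_exp_lt (by positivity)]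
  have eu0 := Real.exp_pos u
  obtain ⟨r, hr⟩ : ∃ r, r = 2 / 5 * Real.exp u := ⟨_, rfl⟩
  have H : Arms c (s - ρ) (s + ρ) (c s) r κ s s α β := by
    refine ⟨by rw [hr]; positivity, k0, k1, by linarith, le_rfl, by linarith, by linarith, ?_,
      ha, hb, h1, h2, ?_⟩
    · intro x hx
      rw [le_antisymm hx.2 hx.1, sub_self, norm_zero, hr]
      positivity
    · intro x hx
      have := hfar x hx
      rw [hr]
      linarith
  have e52 : Real.log (5 / 2 * r) = u := by
    rw [hr, show 5 / 2 * (2 / 5 * Real.exp u) = Real.exp u by ring, Real.log_exp]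
  obtain ⟨s', t', e1, e2, e3, e4, e5, e6, e7⟩ := H.good L J (by rw [e52]; exact hcos)
  have an := H.anti L J
  have mo := H.mono L J
  have C1 : ∀ x, s - ρ < x → x < s → Cone c x := by
    intro x hx1 hx2
    refine arm_cone (p := c s) (κ := κ) (A := s - ρ) (B := s) (σ := -1) (α := α) L.cont k0 k1
      ha hx1 hx2 h1 ?_ (Or.inr rfl) ?_
    · rw [norm_pos_iff]
      intro h
      exact J x s hx2 (by linarith) (sub_eq_zero.1 h)
    · intro y hy z hz hyz
      have : ‖c z - c s‖ < ‖c y - c s‖ := an hy hz hyz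
      linarith
  have C2 : ∀ x, s < x → x < s + ρ → Cone c x := by
    intro x hx1 hx2
    refine arm_cone (p := c s) (κ := κ) (A := s) (B := s + ρ) (σ := 1) (α := β) L.cont k0 k1
      hb hx1 hx2 h2 ?_ (Or.inl rfl) ?_
    · rw [norm_pos_iff]
      intro h
      exact J s x hx1 (by linarith) (sub_eq_zero.1 h).symm
    · intro y hy z hz hyz
      have : ‖c y - c s‖ < ‖c z - c s‖ := mo hy hz hyz
      linarith
  have C : ∀ x, |x - s| < ρ → x ≠ s → Cone c x := by
    intro x hx hne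
    rw [abs_lt] at hx
    rcases lt_or_gt_of_ne hne with h | h
    · exact C1 x (by linarith) h
    · exact C2 x h (by linarith)
  have Cs' : Cone c s' := C1 s' e1 e2
  have Ct' : Cone c t' := C2 t' e3 e4
  have LK : Lk c s' t' := (e7.lnk (by linarith) (by linarith)).lk L J nosq (by linarith)
    (by linarith) Cs' Ct'
  refine ⟨⟨ρ, hρ, C⟩, fun θ g A => ⟨ρ, hρ, fun p q hp hq hpq Cp Cq k l hk hl => ?_⟩⟩
  rw [abs_lt] at hp hq
  -- arcs without `s`
  have arc : ∀ x y, x < y → y < x + 1 → Cone c x → Cone c y → (∀ z ∈ Icc x y, Cone c z) →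
      ∀ k l, KL θ x k → KL θ y l → k = l := by
    intro x y hxy hyx Cx Cy hC k l hk hl
    exact arc_const' L J nosq A hxy hyx Cx Cy (fun z hz => Or.inl (cone_mon (hC z hz))) hk hl
  by_cases hcs : Cone c s
  · refine arc p q hpq (by linarith) Cp Cq (fun z hz => ?_) k l hk hl
    by_cases hzs : z = s
    · rw [hzs]; exact hcs
    · exact C z (by rw [abs_lt]; constructor <;> linarith [hz.1, hz.2]) hzs
  have hps : p ≠ s := fun e => hcs (by rw [← e]; exact Cp)
  have hqs : q ≠ s := fun e => hcs (by rw [← e]; exact Cq)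
  rcases lt_or_gt_of_ne hps with f1 | f1
  · rcases lt_or_gt_of_ne hqs with f2 | f2
    · exact arc p q hpq (by linarith) Cp Cq (fun z hz => C1 z (by linarith [hz.1])
        (by linarith [hz.2])) k l hk hl
    · obtain ⟨k', hk'⟩ := exKL L J A Cs'
      obtain ⟨l', hl'⟩ := exKL L J A Ct'
      have g1 : k = k' := by
        rcases lt_trichotomy p s' with h | h | h
        · exact arc p s' h (by linarith) Cp Cs' (fun z hz => C1 z (by linarith [hz.1])
            (by linarith [hz.2])) k k' hk hk'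
        · rw [← h] at hk'; exact hk.uniq hk'
        · exact (arc s' p h (by linarith) Cs' Cp (fun z hz => C1 z (by linarith [hz.1])
            (by linarith [hz.2])) k' k hk' hk).symm
      have g2 : l' = l := by
        rcases lt_trichotomy q t' with h | h | h
        · exact (arc q t' h (by linarith) Cq Ct' (fun z hz => C2 z (by linarith [hz.1])
            (by linarith [hz.2])) l l' hl hl').symm
        · rw [← h] at hl'; exact hl'.uniq hl
        · exact arc t' q h (by linarith) Ct' Cq (fun z hz => C2 z (by linarith [hz.1])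
            (by linarith [hz.2])) l' l hl' hl
      rw [g1, LK θ g A k' l' hk' hl', g2]
  · exact arc p q hpq (by linarith) Cp Cq (fun z hz => C2 z (by linarith [hz.1])
        (by linarith [hz.2])) k l hk hl

/-- gluing of harmless arcs and of arcs that contain turnable arcs -/
theorem glue (L : Loop c) (J : Inj c) (nosq : NoSq (range c)) {n : ℕ} {t : ℤ → ℝ}
    (ht : StrictMono t) (hn : ∀ i : ℤ, t (i + n) = t i + 1)
    (H : ∀ i : ℤ, (∀ s ∈ Icc (t i) (t (i + 1)), Mon c s ∨ Sg c s) ∨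
      ((Mon c (t i) ∨ Sg c (t i)) ∧ (Mon c (t (i + 1)) ∨ Sg c (t (i + 1))) ∧
      ∃ s' t', t i < s' ∧ s' < t' ∧ t' < t (i + 1) ∧ t (i + 1) ≤ t i + 1 ∧
      (∀ x, t i < x → x ≤ s' → Cone c x) ∧
      (∀ x, t' ≤ x → x < t (i + 1) → Cone c x) ∧ Trn c s' t')) : False := by
  have hn0 : 0 < n := by
    rcases Nat.eq_zero_or_pos n with h | h
    · have := hn 0
      rw [h] at this
      simp at this
    · exact h
  by_cases hall : ∀ i : ℤ, ∀ s ∈ Icc (t i) (t (i + 1)), Mon c s ∨ Sg c s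
  · exact chain L J nosq ht hn fun i => Or.inl (hall i)
  push Not at hall
  obtain ⟨i0, x0, hx0, hx1⟩ := hall
  have hi0 : ¬ ∀ s ∈ Icc (t i0) (t (i0 + 1)), Mon c s ∨ Sg c s := fun h =>
    (h x0 hx0).elim hx1.1 hx1.2
  obtain ⟨θ, g, A, hodd⟩ := exists_odd L J nosq
  obtain ⟨T0, T1, s0, t0, a1, a2, a3, a4, a5, a6, a7⟩ := (H i0).resolve_left hi0
  have C0 : Cone c s0 := a5 s0 a1 le_rfl
  obtain ⟨k, hk⟩ := exKL L J A C0
  have tmono := ht.monotone
  have lkk : ∀ {x y : ℝ}, x < y → y < x + 1 → Cone c x → Cone c y → Trn c x y → KL θ x k →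
      KL θ y k := by
    intro x y h1 h2 Cx Cy h3 h4
    obtain ⟨l, hl⟩ := exKL L J A Cy
    have := (h3.lnk h1 h2).lk L J nosq h1 h2 Cx Cy θ g A k l h4 hl
    rw [this]; exact hl
  have key : ∀ j : ℕ, 1 ≤ j → j ≤ n → ∃ a, Cone c a ∧ KL θ a k ∧ s0 < a ∧ a ≤ t (i0 + j) ∧
      ∀ s ∈ Icc a (t (i0 + j)), Mon c s ∨ Sg c s := by
    intro j hj
    induction j, hj using Nat.le_induction with
    | base =>
      intro _
      have Ct : Cone c t0 := a6 t0 le_rfl a3
      refine ⟨t0, Ct, lkk a2 (by linarith) C0 Ct a7 hk, a2, by push_cast; exact a3.le, ?_⟩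
      intro s hs
      push_cast at hs
      rcases hs.2.eq_or_lt with h | h
      · rw [h]; exact T1
      · exact Or.inl (cone_mon (a6 s hs.1 h))
    | succ j hj ih =>
      intro hjn
      obtain ⟨a, Ca, ka, sa, at', Ha⟩ := ih (by omega)
      have hstep : t (i0 + j) < t (i0 + j + 1) := ht (by omega)
      rw [show (i0 + ((j + 1 : ℕ) : ℤ)) = i0 + j + 1 by push_cast; ring]
      by_cases hT : ∀ s ∈ Icc (t (i0 + j)) (t (i0 + j + 1)), Mon c s ∨ Sg c s
      · refine ⟨a, Ca, ka, sa, by linarith, fun s hs => ?_⟩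
        rcases le_total s (t (i0 + j)) with h | h
        · exact Ha s ⟨hs.1, h⟩
        · exact hT s ⟨h, hs.2⟩
      · obtain ⟨U0, U1, s1, t1, b1, b2, b3, b4, b5, b6, b7⟩ := (H (i0 + j)).resolve_left hT
        have Cs : Cone c s1 := b5 s1 b1 le_rfl
        have Ct : Cone c t1 := b6 t1 le_rfl b3
        have hle : t (i0 + j + 1) ≤ t i0 + 1 := by
          rw [← hn i0]; exact tmono (by omega)
        obtain ⟨l, hl⟩ := exKL L J A Cs
        have e1 : k = l := arc_const' L J nosq A (a := a) (b := s1) (by linarith) (by linarith)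
          Ca Cs (fun s hs => by
            rcases le_or_gt s (t (i0 + j)) with h | h
            · exact Ha s ⟨hs.1, h⟩
            · exact Or.inl (cone_mon (b5 s h hs.2))) ka hl
        rw [← e1] at hl
        refine ⟨t1, Ct, lkk b2 (by linarith) Cs Ct b7 hl, by linarith, b3.le, fun s hs => ?_⟩
        rcases hs.2.eq_or_lt with h | h
        · rw [h]; exact U1
        · exact Or.inl (cone_mon (b6 s hs.1 h))
  obtain ⟨a, Ca, ka, sa, at', Ha⟩ := key n hn0 le_rfl
  rw [hn i0] at at' Ha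
  have e := arc_const' L J nosq A (a := a) (b := s0 + 1) (by linarith) (by linarith) Ca
    (C0.per L) (fun s hs => by
      rcases le_or_gt s (t i0 + 1) with h | h
      · exact Ha s ⟨hs.1, h⟩
      · have := (a5 (s - 1) (by linarith) (by linarith [hs.2])).per L
        rw [sub_add_cancel] at this
        exact Or.inl (cone_mon this)) ka (hk.per A)
  have : g = 0 := by linarith
  rw [this] at hodd
  exact absurd hodd (by decide)

end Pool.Agent.H774.Rad
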