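import Pool.Agent.H774.W1h

/-! Narrow spirals, and the translation of the definitions. -/

set_option autoImplicit false
set_option maxHeartbeats 1000000
open Complex Set Topology Metric

namespace Pool.Agent.H774.Rad

open Pool.Agent.H763R2 Pool.Agent.H763R2.An Pool.Agent.W675.Peg Pool.Agent.TH569.Peg
  Pool.Agent.Y535.PEG Pool.Agent.Helper665_SP Pool.Agent.Helper584_CU
open Pool.Agent.H763R2.Dm (NoSq)

variable {c : ℝ → ℂ}

theorem kappa_nonneg {κ : ℝ} {α : ℝ → ℝ} (h : ∀ u v, |α u - α v| ≤ κ * |u - v|) : 0 ≤ κ := by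
  have := h 1 0
  rw [sub_zero, abs_one, mul_one] at this
  exact (abs_nonneg _).trans this

theorem slow_of_lip {κ : ℝ} {α : ℝ → ℝ} (h : ∀ u v, |α u - α v| ≤ κ * |u - v|)
    (hκ : κ ≤ 1 / 100) (R : ℝ) : Slow (fun r => α (Real.log r)) R := by
  intro r r' hr hrr _
  have h1 := h (Real.log r') (Real.log r)
  have h2 : Real.log r ≤ Real.log r' := Real.log_le_log hr hrr
  rw [abs_of_nonneg (sub_nonneg.2 h2)] at h1
  have h3 : Real.log r' - Real.log r ≤ r' / r - 1 := by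
    rw [← Real.log_div (by linarith) hr.ne']
    exact Real.log_le_sub_one_of_pos (div_pos (by linarith) hr)
  have h4 : r * (r' / r - 1) = r' - r := by field_simp
  have h5 : |α (Real.log r') - α (Real.log r)| ≤ 1 / 100 * (r' / r - 1) := by
    have : κ * (Real.log r' - Real.log r) ≤ 1 / 100 * (r' / r - 1) :=
      mul_le_mul hκ h3 (sub_nonneg.2 h2) (by norm_num)
    linarith
  have h6 := mul_le_mul_of_nonneg_left h5 hr.le
  have h7 : r * (1 / 100 * (r' / r - 1)) = 1 / 100 * (r' - r) := by rw [← h4]; ring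
  simp only
  linarith

theorem thin_sg (L : Loop c) (J : Inj c) (nosq : NoSq (range c)) {s ρ κ : ℝ} {α β : ℝ → ℝ}
    (hρ : 0 < ρ) (k1 : κ ≤ 1 / 100)
    (ha : ∀ u v, |α u - α v| ≤ κ * |u - v|) (hb : ∀ u v, |β u - β v| ≤ κ * |u - v|)
    (h1 : ∀ x ∈ Icc (s - ρ) s, c x = c s + ‖c x - c s‖ * exp (α (Real.log ‖c x - c s‖) * I))
    (h2 : ∀ x ∈ Icc s (s + ρ), c x = c s + ‖c x - c s‖ * exp (β (Real.log ‖c x - c s‖) * I)) :
    Sg c s := by
  obtain ⟨m, hm, hmax⟩ := (isCompact_Icc (a := s - ρ) (b := s + ρ)).exists_isMaxOn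
    ⟨s, by linarith, by linarith⟩ (nC L (c s)).continuousOn
  have hR : ∀ x ∈ Icc (s - ρ) (s + ρ), ‖c x - c s‖ < ‖c m - c s‖ + 1 := fun x hx => by
    have := hmax hx
    simp only [Set.mem_ofPred_eq] at this
    linarith
  refine Rad.sg L J nosq ⟨ρ, hρ, ‖c m - c s‖ + 1, by positivity, _, _, slow_of_lip ha k1 _,
    slow_of_lip hb k1 _, ?_, ?_⟩
  · intro x hx1 hx2
    refine ⟨hR x ⟨hx1.le, by linarith⟩, ?_⟩
    exact sub_eq_iff_eq_add'.2 (h1 x ⟨hx1.le, hx2.le⟩)
  · intro x hx1 hx2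
    refine ⟨hR x ⟨by linarith, hx2.le⟩, ?_⟩
    exact sub_eq_iff_eq_add'.2 (h2 x ⟨hx1.le, hx2.le⟩)

theorem inj_of (L : Loop c) (hinj : InjOn c (Ico 0 1)) : Inj c := by
  intro x y hxy hy he
  have e1 : c (Int.fract x) = c x := by
    have := L.per_int (Int.fract x) ⌊x⌋
    rw [Int.fract_add_floor] at this
    exact this.symm
  have e2 : c (Int.fract y) = c y := by
    have := L.per_int (Int.fract y) ⌊y⌋
    rw [Int.fract_add_floor] at this
    exact this.symm
  have e3 := hinj ⟨Int.fract_nonneg x, Int.fract_lt_one x⟩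
    ⟨Int.fract_nonneg y, Int.fract_lt_one y⟩ (by rw [e1, e2, he])
  obtain ⟨m, hm⟩ := Int.fract_eq_fract.1 e3
  have h1 : (m : ℝ) < 0 := by linarith
  have h2 : (-1 : ℝ) < m := by linarith
  have h3 : m < 0 := by exact_mod_cast h1
  have h4 : -1 < m := by exact_mod_cast h2
  omega

end Pool.Agent.H774.Rad
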